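import Mathlib
import Pool.Agent.W873.Td.Final

set_option autoImplicit false
set_option linter.unusedSectionVars false
set_option linter.unusedVariables false

/-!
# Names of complete ultrafilters, and mixing of names
-/

namespace Pool.Agent.W873.Ns

open Set Cardinal Pool.Agent.Helper669.Forcing
open Pool.Agent.W873.Gmp (for' IsTree IsCofinalBranch TreeProp down_for' for'_left for'_right
  t_unique t_total t_lt t_trans t_pred t_uniq t_ne t_small t_comp meets_dn)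
open Pool.Agent.W873.Gp (not_meets mem_meets_fground meets_of_dense)
open Pool.Agent.W873.Td (DC exists_chain Bd exists_wo for'_elim fnot_dn)

variable {Q : Type} [Preorder Q] {K : Type} [LinearOrder K]

/-- In the extension: `U` is a `κ`-complete ultrafilter on `K` which contains the final
segments. -/
def IsUf (κ : Cardinal.{0}) (U : (K → Set Q) → Set Q) : Set Q :=
  fand (fall fun A : K → Set Q => fall fun A' : K → Set Q =>
    fimp (fand (meets (U A)) (fall fun a : K => fimp (meets (A a)) (meets (A' a))))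
      (meets (U A')))
  (fand (fall fun A : K → Set Q => for' (meets (U A)) (meets (U fun a => fnot (meets (A a)))))
  (fand (fnot (meets (U fun _ => fground False)))
  (fand (fall fun I : Type => fall fun _ : #I < κ => fall fun A : I → K → Set Q =>
    fimp (fall fun i : I => meets (U (A i))) (meets (U fun a => fall fun i : I => meets (A i a))))
  (fall fun a : K => meets (U fun b => fground (a < b))))))

section

variable {κ : Cardinal.{0}} {U : (K → Set Q) → Set Q} {q r : Q}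

theorem uf_mono (h : q ∈ IsUf κ U) (hr : r ≤ q) {A A' : K → Set Q} (hA : r ∈ meets (U A))
    (hs : ∀ a, ∀ r' ≤ r, r' ∈ meets (A a) → ∃ r'' ≤ r', r'' ∈ meets (A' a)) :
    r ∈ meets (U A') :=
  meets_of_dense fun q' hq' => mem_fimp.1 (h.1 A A') q' (hq'.trans hr)
    ⟨meets_dn hA hq', fun a => mem_fimp.2 fun s hs' h' => hs a s (hs'.trans hq') h'⟩

theorem uf_ultra (h : q ∈ IsUf κ U) (hr : r ≤ q) (A : K → Set Q) :
    ∃ r' ≤ r, r' ∈ meets (U A) ∨ r' ∈ meets (U fun a => fnot (meets (A a))) :=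
  for'_elim (down_for' _ _ _ (h.2.1 A) _ hr)

theorem uf_ne (h : q ∈ IsUf κ U) (hr : r ≤ q) {A : K → Set Q} (hA : r ∈ meets (U A)) :
    ∃ r' ≤ r, ∃ a, r' ∈ meets (A a) := by
  by_contra hcon
  push Not at hcon
  exact h.2.2.1 r hr (uf_mono h hr hA fun a r' hr' h' => absurd h' (hcon r' hr' a))

theorem uf_inter (h : q ∈ IsUf κ U) (hr : r ≤ q) {I : Type} (hI : #I < κ) (A : I → K → Set Q)
    (hA : ∀ i, r ∈ meets (U (A i))) : r ∈ meets (U fun a => fall fun i : I => meets (A i a)) :=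
  meets_of_dense fun q' hq' => mem_fimp.1 (h.2.2.2.1 I hI A) q' (hq'.trans hr)
    fun i => meets_dn (hA i) hq'

theorem uf_cov (h : q ∈ IsUf κ U) (hκ : ℵ₀ ≤ κ) (hr : r ≤ q) {I : Type} (hI : #I < κ)
    (A : I → K → Set Q) (a0 : K)
    (hc : ∀ b, a0 < b → ∀ r' ≤ r, ∃ r'' ≤ r', ∃ i, r'' ∈ meets (A i b)) :
    ∃ r' ≤ r, ∃ i, r' ∈ meets (U (A i)) := by
  by_contra hcon
  push Not at hcon
  have h1 : ∀ i, r ∈ meets (U fun a => fnot (meets (A i a))) := fun i =>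
    meets_of_dense fun q' hq' => by
      obtain ⟨r', hr', h2⟩ := uf_ultra h (hq'.trans hr) (A i)
      rcases h2 with h2 | h2
      · exact absurd h2 (hcon r' (hr'.trans hq') i)
      · exact ⟨r', hr', h2⟩
  let A' : Option I → K → Set Q := fun o => match o with
    | none => fun b => fground (a0 < b)
    | some i => fun a => fnot (meets (A i a))
  have h2 := uf_inter h hr (I := Option I) (by
    rw [mk_option]
    exact add_lt_of_lt hκ hI (one_lt_aleph0.trans_le hκ)) A' (by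
    rintro (_ | i)
    · exact meets_dn (h.2.2.2.2 a0) hr
    · exact h1 i)
  obtain ⟨r1, hr1, b, hb⟩ := uf_ne h hr h2
  obtain ⟨r2, hr2, h3⟩ := exists_of_meets (down_fall fun _ => down_meets _) hb
  have h4 : a0 < b := mem_meets_fground.1 (h3 none)
  obtain ⟨r3, hr3, i, h5⟩ := hc b h4 r2 (hr2.trans hr1)
  obtain ⟨r4, hr4, h6⟩ := exists_of_meets (down_fnot _) (meets_dn (h3 (some i)) hr3)
  exact h6 r4 le_rfl (meets_dn h5 hr4)

theorem uf_two (h : q ∈ IsUf κ U) (hκ : ℵ₀ ≤ κ) (hr : r ≤ q) (a0 : K) {A A' : K → Set Q}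
    (hA : r ∈ meets (U A)) (hA' : r ∈ meets (U A')) :
    ∃ r' ≤ r, ∃ b, a0 < b ∧ r' ∈ meets (A b) ∧ r' ∈ meets (A' b) := by
  let A'' : Option Bool → K → Set Q := fun o => match o with
    | none => fun b => fground (a0 < b)
    | some true => A
    | some false => A'
  have h2 := uf_inter h hr (I := Option Bool) ((lt_aleph0_of_finite _).trans_le hκ) A'' (by
    rintro (_ | _ | _)
    · exact meets_dn (h.2.2.2.2 a0) hr
    · exact hA'
    · exact hA)
  obtain ⟨r1, hr1, b, hb⟩ := uf_ne h hr h2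
  obtain ⟨r2, hr2, h3⟩ := exists_of_meets (down_fall fun _ => down_meets _) hb
  exact ⟨r2, hr2.trans hr1, b, mem_meets_fground.1 (h3 none), h3 (some true), h3 (some false)⟩

end

/-! ### Mixing -/

theorem exists_rg (q : Q) (G : Set Q) (hG : ∀ q' ≤ q, ∃ a ≤ q', a ∈ G) :
    ∃ D : Q → Set Q, (∀ q' ≤ q, ∃ r ≤ q', ∃ a, r ∈ D a) ∧ (∀ a, ∀ r ∈ D a, r ≤ a ∧ a ∈ G) ∧
      (∀ a, Down (D a)) ∧ ∀ a b r, r ∈ D a → r ∈ D b → a = b := by
  refine ⟨fun a => {r | a ∈ G ∧ r ≤ a ∧ ∀ a', WellOrderingRel a' a → a' ∈ G → ∀ s ≤ r, ¬ s ≤ a'},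
    fun q' hq' => ?_, fun a r hr => ⟨hr.2.1, hr.1⟩, ?_, ?_⟩
  · obtain ⟨a, ha, haG⟩ := hG q' hq'
    obtain ⟨a0, ⟨h1, s, h2, h3⟩, hmin⟩ := (IsWellFounded.wf (r := WellOrderingRel (α := Q))).has_min
      {a | a ∈ G ∧ ∃ s, s ≤ q' ∧ s ≤ a} ⟨a, haG, a, ha, le_rfl⟩
    exact ⟨s, h2, a0, h1, h3, fun a' ha' ha'G t ht hta => hmin a' ⟨ha'G, t, ht.trans h2, hta⟩ ha'⟩
  · rintro a r ⟨h1, h2, h3⟩ r' hr'
    exact ⟨h1, hr'.trans h2, fun a' ha' ha'G s hs => h3 a' ha' ha'G s (hs.trans hr')⟩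
  · rintro a b r ⟨h1, h2, h3⟩ ⟨h4, h5, h6⟩
    rcases trichotomous_of WellOrderingRel a b with h | h | h
    · exact absurd h2 (h6 a h h1 r le_rfl)
    · exact h
    · exact absurd h5 (h3 b h h4 r le_rfl)

/-- the mixed name -/
def mx {X : Type} (D : Q → Set Q) (N : Q → X → Set Q) (x : X) : Set Q :=
  {r | ∃ a, r ∈ D a ∧ r ∈ meets (N a x)}

theorem mem_mx {X : Type} {D : Q → Set Q} (hD : ∀ a, Down (D a))
    (hu : ∀ a b r, r ∈ D a → r ∈ D b → a = b) {N : Q → X → Set Q} {x : X} {a r : Q}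
    (hr : r ∈ D a) : r ∈ meets (mx D N x) ↔ r ∈ meets (N a x) := by
  constructor
  · intro h
    refine meets_of_dense fun q hq => ?_
    obtain ⟨t, ht, s, ⟨b, hsb, hs⟩, hts⟩ := h q hq
    have h1 : a = b := hu a b t (hD a r hr t (ht.trans hq)) (hD b s hsb t hts)
    subst h1
    exact ⟨t, ht, meets_dn hs hts⟩
  · intro h
    exact meets_of_mem ⟨a, hr, h⟩

/-! ### The levels -/

variable {L : Type}

/-- `F α` enumerates the level `α`, and `Y α` is a node of this level. -/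
structure Le (W : Type) (R : L → L → Set Q) (ℓ : L → K → Set Q) (q : Q)
    (F : K → W → L → Set Q) (Y : K → L → Set Q) : Prop where
  tree : q ∈ IsTree W R ℓ
  ye : ∀ α, ∀ r ≤ q, ∃ r' ≤ r, ∃ x, r' ∈ meets (Y α x)
  yl : ∀ α x, ∀ r ≤ q, r ∈ meets (Y α x) → r ∈ meets (ℓ x α)
  yu : ∀ α x x', ∀ r ≤ q, r ∈ meets (Y α x) → r ∈ meets (Y α x') → x = x'
  fe : ∀ α x, ∀ r ≤ q, r ∈ meets (ℓ x α) → ∃ r' ≤ r, ∃ w, r' ∈ meets (F α w x)
  fl : ∀ α w x, ∀ r ≤ q, r ∈ meets (F α w x) → r ∈ meets (ℓ x α)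
  fu : ∀ α w x x', ∀ r ≤ q, r ∈ meets (F α w x) → r ∈ meets (F α w x') → x = x'

theorem exists_le {W : Type} {R : L → L → Set Q} {ℓ : L → K → Set Q} {q : Q}
    (hT : q ∈ IsTree W R ℓ) : ∃ (F : K → W → L → Set Q) (Y : K → L → Set Q),
      Le W R ℓ q F Y := by
  classical
  let G : K → Set Q := fun α => {a | a ≤ q ∧ ∃ (F : W → L → Set Q) (y : L), a ∈ IsFun F ∧
    (∀ x, ∀ r ≤ a, r ∈ meets (ℓ x α) → ∃ s ≤ r, ∃ w, s ∈ meets (F w x)) ∧ a ∈ meets (ℓ y α)}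
  have hG : ∀ α, ∀ q' ≤ q, ∃ a ≤ q', a ∈ G α := by
    intro α q' hq'
    obtain ⟨r, hr, y, hy⟩ := t_ne hT hq' α
    obtain ⟨s, hs, F, hF, h⟩ := t_small hT (hr.trans hq') α
    exact ⟨s, hs.trans hr, (hs.trans hr).trans hq', F, y, hF, h, meets_dn hy hs⟩
  have h1 : ∀ α a, ∃ (F : W → L → Set Q) (y : Set L), a ∈ G α → a ∈ IsFun F ∧
      (∀ x, ∀ r ≤ a, r ∈ meets (ℓ x α) → ∃ s ≤ r, ∃ w, s ∈ meets (F w x)) ∧
      ∃ z, y = {z} ∧ a ∈ meets (ℓ z α) := by
    intro α a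
    by_cases h : a ∈ G α
    · obtain ⟨_, F, y, h2, h3, h4⟩ := h
      exact ⟨F, {y}, fun _ => ⟨h2, h3, y, rfl, h4⟩⟩
    · exact ⟨fun _ _ => ∅, ∅, fun h' => absurd h' h⟩
  choose F0 y0 hFy using h1
  choose D hD1 hD2 hD3 hD4 using fun α => exists_rg q (G α) (hG α)
  have hm : ∀ {X : Type} (N : K → Q → X → Set Q) α x a r, r ∈ D α a →
      (r ∈ meets (mx (D α) (N α) x) ↔ r ∈ meets (N α a x)) := fun N α x a r hr =>
    mem_mx (hD3 α) (hD4 α) hr
  refine ⟨fun α w x => {r | r ∈ meets (mx (D α) (fun a x => F0 α a w x) x) ∧ r ∈ meets (ℓ x α)},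
    fun α x => mx (D α) (fun a x => fground (x ∈ y0 α a)) x, hT, ?_, ?_, ?_, ?_, ?_, ?_⟩
  · intro α r hr
    obtain ⟨r', hr', a, ha⟩ := hD1 α r hr
    obtain ⟨_, _, z, hz, _⟩ := hFy α a (hD2 α a r' ha).2
    refine ⟨r', hr', z, (hm (fun α a x => fground (x ∈ y0 α a)) α z a r' ha).2 ?_⟩
    exact mem_meets_fground.2 (by rw [hz]; exact rfl)
  · intro α x r hr h
    refine meets_of_dense fun r1 hr1 => ?_
    obtain ⟨r', hr', a, ha⟩ := hD1 α r1 (hr1.trans hr)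
    obtain ⟨_, _, z, hz, hzl⟩ := hFy α a (hD2 α a r' ha).2
    have h2 := mem_meets_fground.1 ((hm (fun α a x => fground (x ∈ y0 α a)) α x a r' ha).1
      (meets_dn h (hr'.trans hr1)))
    rw [hz] at h2
    rw [mem_singleton_iff.1 h2]
    exact ⟨r', hr', meets_dn hzl (hD2 α a r' ha).1⟩
  · intro α x x' r hr h h'
    obtain ⟨r', hr', a, ha⟩ := hD1 α r hr
    obtain ⟨_, _, z, hz, hzl⟩ := hFy α a (hD2 α a r' ha).2
    have h2 := mem_meets_fground.1 ((hm (fun α a x => fground (x ∈ y0 α a)) α x a r' ha).1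
      (meets_dn h hr'))
    have h3 := mem_meets_fground.1 ((hm (fun α a x => fground (x ∈ y0 α a)) α x' a r' ha).1
      (meets_dn h' hr'))
    rw [hz] at h2 h3
    rw [mem_singleton_iff.1 h2, mem_singleton_iff.1 h3]
  · intro α x r hr h
    obtain ⟨r', hr', a, ha⟩ := hD1 α r hr
    obtain ⟨_, h3, _⟩ := hFy α a (hD2 α a r' ha).2
    obtain ⟨s, hs, w, hw⟩ := h3 x r' (hD2 α a r' ha).1 (meets_dn h hr')
    refine ⟨s, hs.trans hr', w, meets_of_mem ⟨?_, meets_dn h (hs.trans hr')⟩⟩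
    exact (hm (fun α a x => F0 α a w x) α x a s (hD3 α a r' ha s hs)).2 hw
  · intro α w x r hr h
    refine meets_of_dense fun r1 hr1 => ?_
    obtain ⟨t, ht, s, hs, hts⟩ := h r1 hr1
    exact ⟨t, ht, meets_dn hs.2 hts⟩
  · intro α w x x' r hr h h'
    obtain ⟨t, ht, s, hs, hts⟩ := h r le_rfl
    obtain ⟨t', ht', s', hs', hts'⟩ := h' t ht
    obtain ⟨r', hr', a, ha⟩ := hD1 α t' (ht'.trans (ht.trans hr))
    obtain ⟨h3, _⟩ := hFy α a (hD2 α a r' ha).2
    have h4 := (hm (fun α a x => F0 α a w x) α x a r' ha).1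
      (meets_dn hs.1 (hr'.trans (ht'.trans hts)))
    have h5 := (hm (fun α a x => F0 α a w x) α x' a r' ha).1
      (meets_dn hs'.1 (hr'.trans hts'))
    exact IsFun.unique (down_IsFun _ a h3 r' (hD2 α a r' ha).1) h4 h5

end Pool.Agent.W873.Ns
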