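import Mathlib
import Pool.Agent.W873.Ns.Uf

set_option autoImplicit false
set_option linter.unusedSectionVars false
set_option linter.unusedVariables false

/-!
# The tree property at the successor of a limit of compact cardinals
-/

namespace Pool.Agent.W873.Ns

open Set Cardinal Pool.Agent.Helper669.Forcing
open Pool.Agent.W873.Gmp (for' IsTree IsCofinalBranch TreeProp down_for' for'_left for'_right
  t_unique t_total t_lt t_trans t_pred t_uniq t_ne t_small t_comp meets_dn)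
open Pool.Agent.W873.Gp (not_meets mem_meets_fground meets_of_dense)
open Pool.Agent.W873.Td (DC exists_chain Bd exists_wo for'_elim fnot_dn)

variable {Q : Type} [Preorder Q] {K : Type} [LinearOrder K] {W L : Type}

/-- the predecessor of `Y β` on level `α` has an index in `V` -/
def An (V : Set W) (R : L → L → Set Q) (F : K → W → L → Set Q) (Y : K → L → Set Q) (α β : K) :
    Set Q :=
  {r | ∃ x y w, w ∈ V ∧ r ∈ meets (Y β y) ∧ r ∈ meets (R x y) ∧ r ∈ meets (F α w x)}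

theorem down_An {V : Set W} {R : L → L → Set Q} {F : K → W → L → Set Q} {Y : K → L → Set Q}
    {α β : K} : Down (An V R F Y α β) := by
  rintro r ⟨x, y, w, h1, h2, h3, h4⟩ r' hr'
  exact ⟨x, y, w, h1, meets_dn h2 hr', meets_dn h3 hr', meets_dn h4 hr'⟩

/-- `γ` is the least element of `S` above `β` -/
def Ls (S : K → Set Q) (γ β : K) : Set Q :=
  {r | β < γ ∧ r ∈ meets (S γ) ∧ ∀ δ, β < δ → δ < γ → r ∈ fnot (meets (S δ))}

theorem down_Ls {S : K → Set Q} {γ β : K} : Down (Ls S γ β) := by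
  rintro r ⟨h1, h2, h3⟩ r' hr'
  exact ⟨h1, meets_dn h2 hr', fun δ h4 h5 => fnot_dn (h3 δ h4 h5) hr'⟩

theorem ls_unique {S : K → Set Q} {γ γ' β : K} {r : Q} (h : r ∈ Ls S γ β) (h' : r ∈ Ls S γ' β) :
    γ = γ' := by
  rcases lt_trichotomy γ γ' with h1 | h1 | h1
  · exact absurd h.2.1 (h'.2.2 γ h.1 h1 r le_rfl)
  · exact h1
  · exact absurd h'.2.1 (h.2.2 γ' h'.1 h1 r le_rfl)

theorem exists_ls [WellFoundedLT K] {S : K → Set Q} {q : Q}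
    (hS : ∀ a, ∀ r ≤ q, ∃ r' ≤ r, ∃ α, a < α ∧ r' ∈ meets (S α)) (β : K) {r : Q} (hr : r ≤ q) :
    ∃ r' ≤ r, ∃ γ, r' ∈ Ls S γ β := by
  obtain ⟨r1, hr1, γ1, h1, h2⟩ := hS β r hr
  obtain ⟨γ, ⟨r', h3, h4, h5⟩, hmin⟩ := WellFounded.has_min (wellFounded_lt (α := K))
    {γ | ∃ r' ≤ r, β < γ ∧ r' ∈ meets (S γ)} ⟨γ1, r1, hr1, h1, h2⟩
  exact ⟨r', h3, γ, h4, h5, fun δ h6 h7 s hs hsd => hmin δ ⟨s, hs.trans h3, h6, hsd⟩ h7⟩

/-- `x` is below the node with index `j` on the next level from `S` -/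
def Bn (R : L → L → Set Q) (F : K → W → L → Set Q) (S : K → Set Q) (x : L) (j : W) (β : K) :
    Set Q :=
  {r | ∃ γ y, r ∈ Ls S γ β ∧ r ∈ meets (F γ j y) ∧ r ∈ meets (R x y)}

theorem down_Bn {R : L → L → Set Q} {F : K → W → L → Set Q} {S : K → Set Q} {x : L} {j : W}
    {β : K} : Down (Bn R F S x j β) := by
  rintro r ⟨γ, y, h1, h2, h3⟩ r' hr'
  exact ⟨γ, y, down_Ls r h1 r' hr', meets_dn h2 hr', meets_dn h3 hr'⟩

section

variable [WellFoundedLT K] {lam κ : Cardinal.{0}} {R : L → L → Set Q} {ℓ : L → K → Set Q} {q : Q}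
  {F : K → W → L → Set Q} {Y : K → L → Set Q}

theorem claim1 (h0 : ℵ₀ ≤ lam) (hD : DC lam Q) (hb : Bd lam K) (hL : Le W R ℓ q F Y)
    {V : ℕ → Set W} (hV : ∀ w, ∃ m, w ∈ V m) (hκ : ℵ₀ < κ) {U : (K → Set Q) → Set Q}
    (hU : q ∈ IsUf κ U) :
    ∃ m, ∃ r ≤ q, ∀ a, ∀ r' ≤ r, ∃ r'' ≤ r', ∃ α, a < α ∧
      r'' ∈ meets (U (An (V m) R F Y α)) := by
  by_contra hcon
  push Not at hcon
  obtain ⟨M, hM1, hM2, hM3⟩ := exists_chain h0 hD (J := ℕ)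
    (fun j => (mk_set_le _).trans (by rw [mk_nat]; exact h0)) q
    (fun m _ p' => ∃ a, ∀ r'' ≤ p', ∀ α, a < α → r'' ∉ meets (U (An (V m) R F Y α))) (by
    intro m p hp
    obtain ⟨a, r', hr', h⟩ := hcon m p hp
    exact ⟨r', hr', a, h⟩)
  obtain ⟨mi, hmi⟩ := hD.lb (J := ℕ) (by rw [mk_nat]; exact h0) M hM2
  choose m hm1 hm2 hm3 a ha using hM3
  obtain ⟨α, hα⟩ := hb ℕ a (by rw [mk_nat]; exact h0)
  have hmq : mi ≤ q := (hmi 0).trans (hM1 0)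
  obtain ⟨r', hr', n, hn⟩ := uf_cov hU hκ.le hmq (I := ℕ) (by rw [mk_nat]; exact hκ)
    (fun m => An (V m) R F Y α) α (by
    intro b hab r' hr'
    have hr0 : r' ≤ q := hr'.trans hmq
    obtain ⟨r1, h1, y, hy⟩ := hL.ye b r' hr0
    obtain ⟨r2, h2, x, hxy, hxa⟩ := t_pred hL.tree (h1.trans hr0) (hL.yl b y r1 (h1.trans hr0) hy)
      hab
    obtain ⟨r3, h3, w, hw⟩ := hL.fe α x r2 (h2.trans (h1.trans hr0)) hxa
    obtain ⟨n, hn⟩ := hV w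
    exact ⟨r3, h3.trans (h2.trans h1), n, meets_of_mem ⟨x, y, w, hn,
      meets_dn hy (h3.trans h2), meets_dn hxy h3, hw⟩⟩)
  exact ha n r' (hr'.trans (hmi n)) α (hα n) hn

theorem claim1b (hL : Le W R ℓ q F Y) (hκ : ℵ₀ ≤ κ) {U : (K → Set Q) → Set Q}
    (hU : q ∈ IsUf κ U) {V : Set W} {r : Q} (hr : r ≤ q) {α β : K} (hαβ : α < β)
    (hα : r ∈ meets (U (An V R F Y α))) (hβ : r ∈ meets (U (An V R F Y β))) :
    ∃ r' ≤ r, ∃ i ∈ V, ∃ j ∈ V, ∃ x y, r' ∈ meets (F α i x) ∧ r' ∈ meets (F β j y) ∧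
      r' ∈ meets (R x y) := by
  obtain ⟨r1, hr1, b, _, h1, h2⟩ := uf_two hU hκ hr α hα hβ
  obtain ⟨r2, hr2, x, y, i, hi, hy, hxy, hx⟩ := exists_of_meets down_An h1
  obtain ⟨r3, hr3, x', y', j, hj, hy', hxy', hx'⟩ := exists_of_meets down_An (meets_dn h2 hr2)
  have hr0 : r3 ≤ q := hr3.trans (hr2.trans (hr1.trans hr))
  have e : y = y' := hL.yu b y y' r3 hr0 (meets_dn hy hr3) hy'
  subst e
  refine ⟨r3, hr3.trans (hr2.trans hr1), i, hi, j, hj, x, x', meets_dn hx hr3, hx', ?_⟩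
  exact t_comp hL.tree hr0 (meets_dn hxy hr3) hxy' (hL.fl α i x r3 hr0 (meets_dn hx hr3))
    (hL.fl β j x' r3 hr0 hx') hαβ

/-- the situation of the second part -/
structure St (W : Type) (V : Set W) (lam κ : Cardinal.{0}) (R : L → L → Set Q)
    (ℓ : L → K → Set Q) (q : Q) (F : K → W → L → Set Q) (Y : K → L → Set Q)
    (S : K → Set Q) (U : (K → Set Q) → Set Q) : Prop where
  le : Le W R ℓ q F Y
  h0 : ℵ₀ ≤ lam
  dc : DC lam Q
  bd : Bd lam K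
  hκ : ℵ₀ ≤ κ
  hV : #V < κ
  hV' : #V ≤ lam
  uf : q ∈ IsUf κ U
  unb : ∀ a, ∀ r ≤ q, ∃ r' ≤ r, ∃ α, a < α ∧ r' ∈ meets (S α)
  two : ∀ r ≤ q, ∀ α β, α < β → r ∈ meets (S α) → r ∈ meets (S β) →
    ∃ r' ≤ r, ∃ i ∈ V, ∃ j ∈ V, ∃ x y, r' ∈ meets (F α i x) ∧ r' ∈ meets (F β j y) ∧
      r' ∈ meets (R x y)

variable {V : Set W} {S : K → Set Q} {U : (K → Set Q) → Set Q}

theorem St.claim2 (H : St W V lam κ R ℓ q F Y S U) {r : Q} (hr : r ≤ q) {α : K}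
    (hα : r ∈ meets (S α)) : ∃ r' ≤ r, ∃ j ∈ V, ∃ x, r' ∈ meets (ℓ x α) ∧
      r' ∈ meets (U (Bn R F S x j)) := by
  let A : V × V → K → Set Q := fun ij β => {s | ∃ x, s ∈ meets (F α ij.1 x) ∧
    s ∈ Bn R F S x ij.2 β}
  have hA : ∀ ij β, Down (A ij β) := by
    rintro ij β s ⟨x, h1, h2⟩ s' hs'
    exact ⟨x, meets_dn h1 hs', down_Bn s h2 s' hs'⟩
  obtain ⟨r1, hr1, ij, h1⟩ := uf_cov H.uf H.hκ hr (I := V × V) (by
    have h1 : #(V × V) = #V * #V := by simp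
    rw [h1]
    exact mul_lt_of_lt H.hκ H.hV H.hV) A α (by
    intro b hab r' hr'
    have hr0 : r' ≤ q := hr'.trans hr
    obtain ⟨r1, hr1, γ, hγ⟩ := exists_ls H.unb b hr0
    obtain ⟨r2, hr2, i, hi, j, hj, x, y, hx, hy, hxy⟩ := H.two r1 (hr1.trans hr0) α γ
      (hab.trans hγ.1) (meets_dn hα (hr1.trans hr')) hγ.2.1
    exact ⟨r2, hr2.trans hr1, (⟨i, hi⟩, ⟨j, hj⟩), meets_of_mem ⟨x, hx, γ, y,
      down_Ls _ hγ _ hr2, hy, hxy⟩⟩)
  obtain ⟨r2, hr2, b, h2⟩ := uf_ne H.uf (hr1.trans hr) h1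
  obtain ⟨r3, hr3, x, hx, _⟩ := exists_of_meets (hA ij b) h2
  have hr0 : r3 ≤ q := hr3.trans (hr2.trans (hr1.trans hr))
  refine ⟨r3, hr3.trans (hr2.trans hr1), ij.2, ij.2.2, x, H.le.fl α ij.1 x r3 hr0 hx, ?_⟩
  refine uf_mono H.uf hr0 (meets_dn h1 (hr3.trans hr2)) fun a s hs hsA => ?_
  obtain ⟨s', hs', x', hx', hB⟩ := exists_of_meets (hA ij a) hsA
  have e : x' = x := H.le.fu α ij.1 x' x s' (hs'.trans (hs.trans hr0)) hx'
    (meets_dn hx (hs'.trans hs))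
  subst e
  exact ⟨s', hs', meets_of_mem hB⟩

theorem St.claim3 (H : St W V lam κ R ℓ q F Y S U) : ∃ j ∈ V, ∃ r ≤ q, ∀ a, ∀ r' ≤ r,
    ∃ r'' ≤ r', ∃ x α, a < α ∧ r'' ∈ meets (ℓ x α) ∧ r'' ∈ meets (U (Bn R F S x j)) := by
  by_contra hcon
  push Not at hcon
  obtain ⟨_, _⟩ := exists_wo V
  obtain ⟨M, hM1, hM2, hM3⟩ := exists_chain H.h0 H.dc (J := V)
    (fun j => (mk_set_le _).trans H.hV') q
    (fun j _ p' => ∃ a, ∀ r'' ≤ p', ∀ x α, a < α → r'' ∈ meets (ℓ x α) →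
      r'' ∉ meets (U (Bn R F S x j))) (by
    intro j p hp
    obtain ⟨a, r', hr', h⟩ := hcon j j.2 p hp
    exact ⟨r', hr', a, h⟩)
  choose m hm1 hm2 hm3 a ha using hM3
  obtain ⟨α0, hα0⟩ := H.bd V a H.hV'
  -- `V` is nonempty
  have hne : Nonempty V := by
    obtain ⟨r1, hr1, α, _, h1⟩ := H.unb α0 q le_rfl
    obtain ⟨_, _, j, hj, _⟩ := H.claim2 hr1 h1
    exact ⟨⟨j, hj⟩⟩
  obtain ⟨mi, hmi⟩ := H.dc.lb H.hV' M hM2
  have hmq : mi ≤ q := (hmi hne.some).trans (hM1 _)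
  obtain ⟨r1, hr1, α, hα, h1⟩ := H.unb α0 mi hmq
  obtain ⟨r2, hr2, j, hj, x, hx, h2⟩ := H.claim2 (hr1.trans hmq) h1
  exact ha ⟨j, hj⟩ r2 (hr2.trans (hr1.trans (hmi _))) x α ((hα0 _).trans hα) hx h2

theorem St.branch (H : St W V lam κ R ℓ q F Y S U) {j : W} {q' : Q} (hq : q' ≤ q)
    (hj : ∀ a, ∀ r' ≤ q', ∃ r'' ≤ r', ∃ x α, a < α ∧ r'' ∈ meets (ℓ x α) ∧
      r'' ∈ meets (U (Bn R F S x j))) :
    q' ∈ IsCofinalBranch R ℓ fun x => U (Bn R F S x j) := by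
  have hT := H.le.tree
  refine ⟨fun x y => ?_, fun a => ?_⟩
  · refine mem_fimp.2 fun r hr h => ?_
    have hr0 : r ≤ q := hr.trans hq
    obtain ⟨r0, hr0', a0, _⟩ := t_total hT hr0 x
    obtain ⟨r1, hr1, b, _, h1, h2⟩ := uf_two H.uf H.hκ hr0 a0 h.1 h.2
    obtain ⟨r2, hr2, γ, z, hγ, hz, hxz⟩ := exists_of_meets down_Bn h1
    obtain ⟨r3, hr3, γ', z', hγ', hz', hyz'⟩ := exists_of_meets down_Bn (meets_dn h2 hr2)
    have e1 : γ = γ' := ls_unique (down_Ls _ hγ _ hr3) hγ'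
    subst e1
    have hr3r : r3 ≤ r := hr3.trans (hr2.trans hr1)
    have e2 : z = z' := H.le.fu γ j z z' r3 (hr3r.trans hr0) (meets_dn hz hr3) hz'
    subst e2
    obtain ⟨r4, hr4, a, ha⟩ := t_total hT (hr3r.trans hr0) x
    obtain ⟨r5, hr5, c, hc⟩ := t_total hT (hr4.trans (hr3r.trans hr0)) y
    have hr5r : r5 ≤ r := hr5.trans (hr4.trans hr3r)
    have k1 := meets_dn hxz ((hr5.trans hr4).trans hr3)
    have k2 := meets_dn hyz' (hr5.trans hr4)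
    have k3 := meets_dn ha hr5
    refine ⟨r5, hr5r, ?_⟩
    rcases lt_trichotomy a c with h3 | h3 | h3
    · exact for'_right (down_for' _ _) (for'_left (down_meets _)
        (t_comp hT (hr5r.trans hr0) k1 k2 k3 hc h3))
    · subst h3
      exact for'_left (down_fground _) (t_uniq hT (hr5r.trans hr0) k1 k2 k3 hc)
    · exact for'_right (down_for' _ _) (for'_right (down_meets _)
        (t_comp hT (hr5r.trans hr0) k2 k1 hc k3 h3))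
  · refine mem_fex.2 fun r hr => ?_
    obtain ⟨r1, hr1, y, α, hα, hy, hB⟩ := hj a r hr
    have hr0 : r1 ≤ q := hr1.trans (hr.trans hq)
    obtain ⟨r2, hr2, x, hxy, hx⟩ := t_pred hT hr0 hy hα
    refine ⟨r2, hr2.trans hr1, x, ?_, hx⟩
    refine uf_mono H.uf (hr2.trans hr0) (meets_dn hB hr2) fun β s hs hsB => ?_
    obtain ⟨s', hs', γ, z, hγ, hz, hyz⟩ := exists_of_meets down_Bn hsB
    exact ⟨s', hs', meets_of_mem ⟨γ, z, hγ, hz, t_trans hT (hs'.trans (hs.trans (hr2.trans hr0)))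
      (meets_dn hxy (hs'.trans hs)) hyz⟩⟩

end

/-- Magidor and Shelah: the tree property. -/
theorem ms [WellFoundedLT K] {lam : Cardinal.{0}} (h0 : ℵ₀ ≤ lam) (hD : DC lam Q)
    (hb : Bd lam K) {κ : ℕ → Cardinal.{0}} (hκ : ∀ m, ℵ₀ < κ m)
    (hU : ∀ m, ∀ q : Q, q ∈ fex fun U : (K → Set Q) → Set Q => IsUf (κ m) U)
    {V : ℕ → Set W} (hV : ∀ w, ∃ m, w ∈ V m) (hV1 : ∀ m, #(V m) < κ (m + 1))
    (hV2 : ∀ m, #(V m) ≤ lam) (q : Q) : q ∈ TreeProp Q K W := by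
  intro L R ℓ
  refine mem_fimp.2 fun q0 _ hq0 => ⟨q0, le_rfl, ?_⟩
  refine mem_fex.2 fun q1 hq1 => ?_
  have hT : ∀ r ≤ q1, r ∈ IsTree W R ℓ := fun r hr =>
    Td.down_isTree R ℓ q0 hq0 r (hr.trans hq1)
  obtain ⟨q2, hq2, U0, hU0⟩ := mem_fex.1 (hU 0 q1) q1 le_rfl
  obtain ⟨F, Y, hL⟩ := exists_le (hT q2 hq2)
  obtain ⟨m, q3, hq3, hm⟩ := claim1 h0 hD hb hL hV (hκ 0) hU0
  obtain ⟨q4, hq4, U1, hU1⟩ := mem_fex.1 (hU (m + 1) q3) q3 le_rfl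
  have hq42 : q4 ≤ q2 := hq4.trans hq3
  have H : St W (V m) lam (κ (m + 1)) R ℓ q4 F Y (fun α => U0 (An (V m) R F Y α)) U1 := {
    le := ⟨hT q4 (hq42.trans hq2), fun α r hr => hL.ye α r (hr.trans hq42),
      fun α x r hr => hL.yl α x r (hr.trans hq42), fun α x x' r hr => hL.yu α x x' r
      (hr.trans hq42), fun α x r hr => hL.fe α x r (hr.trans hq42),
      fun α w x r hr => hL.fl α w x r (hr.trans hq42),
      fun α w x x' r hr => hL.fu α w x x' r (hr.trans hq42)⟩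
    h0 := h0
    dc := hD
    bd := hb
    hκ := (hκ _).le
    hV := hV1 m
    hV' := hV2 m
    uf := hU1
    unb := fun a r hr => hm a r (hr.trans hq4)
    two := fun r hr α β hαβ hα hβ => claim1b hL (hκ 0).le hU0 (hr.trans hq42) hαβ hα hβ }
  obtain ⟨j, _, q5, hq5, hj⟩ := H.claim3
  exact ⟨q5, hq5.trans (hq42.trans hq2), _, H.branch hq5 hj⟩

end Pool.Agent.W873.Ns
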