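import Mathlib
import Pool.Agent.W873.Td.Final

set_option autoImplicit false
set_option linter.unusedSectionVars false
set_option linter.unusedVariables false

/-!
# Subadditive functions and their threads
-/

namespace Pool.Agent.W873.Ns

open Set Cardinal Pool.Agent.Helper669.Forcing
open Pool.Agent.W873.Td (DC exists_chain Pj pb down_pb mem_pb pj_isTree Bd exists_wo mk_fin_pi)

variable {K : Type} [LinearOrder K]

variable (K) in
/-- subadditive functions on the ordinals up to `g` -/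
structure Rc where
  g : K
  d : K → K → ℕ
  z0 : ∀ a ≤ g, d a a = 0
  s1 : ∀ a b c, a ≤ b → b ≤ c → c ≤ g → d a c ≤ max (d a b) (d b c)
  s2 : ∀ a b c, a ≤ b → b ≤ c → c ≤ g → d a b ≤ max (d a c) (d b c)

instance : Preorder (Rc K) where
  le q p := p.g ≤ q.g ∧ ∀ a b, a ≤ b → b ≤ p.g → q.d a b = p.d a b
  le_refl p := ⟨le_rfl, fun _ _ _ _ => rfl⟩
  le_trans p q r h h' := ⟨h'.1.trans h.1, fun z b hz hb =>
    (h.2 z b hz (hb.trans h'.1)).trans (h'.2 z b hz hb)⟩

variable (K) in
/-- the same conditions with a stronger order: the top elements are on one thread -/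
structure Uc (m : ℕ) where
  r : Rc K

instance (m : ℕ) : Preorder (Uc K m) where
  le q p := q.r ≤ p.r ∧ q.r.d p.r.g q.r.g ≤ m
  le_refl p := ⟨le_rfl, by rw [p.r.z0 _ le_rfl]; exact Nat.zero_le _⟩
  le_trans q p s h h' := by
    refine ⟨h.1.trans h'.1, ?_⟩
    have h1 := q.r.s1 s.r.g p.r.g q.r.g h'.1.1 h.1.1 le_rfl
    refine h1.trans (max_le ?_ h.2)
    rw [h.1.2 _ _ h'.1.1 le_rfl]
    exact h'.2

theorem Uc.le_def {m : ℕ} {q p : Uc K m} : q ≤ p ↔ q.r ≤ p.r ∧ q.r.d p.r.g q.r.g ≤ m := Iff.rfl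

/-- independence of the element of the thread -/
theorem Rc.ind (r : Rc K) {X : Set K} (hX : ∀ x ∈ X, x ≤ r.g)
    (hd : ∀ x ∈ X, ∀ y ∈ X, x ≤ y → r.d x y = 0) {a x y : K} (hx : x ∈ X) (hy : y ∈ X)
    (hax : a ≤ x) (hay : a ≤ y) : r.d a x = r.d a y := by
  have key : ∀ x ∈ X, ∀ y ∈ X, a ≤ x → x ≤ y → r.d a x = r.d a y := by
    intro x hx y hy hax hxy
    have h0 := hd x hx y hy hxy
    have h1 := r.s1 a x y hax hxy (hX y hy)
    have h2 := r.s2 a x y hax hxy (hX y hy)
    rw [h0] at h1 h2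
    simp only [Nat.max_zero] at h1 h2
    omega
  rcases le_total x y with h | h
  · exact key x hx y hy hax h
  · exact (key y hy x hx hay h).symm

/-- A new top element above a thread. -/
theorem Rc.ext (r : Rc K) {g' : K} (hg : r.g < g') (hg' : ∀ z < g', z ≤ r.g) (X : Set K)
    (hX : ∀ x ∈ X, x ≤ r.g) (hd : ∀ x ∈ X, ∀ y ∈ X, x ≤ y → r.d x y = 0) (M : ℕ)
    (hM : ∀ x ∈ X, r.d x r.g ≤ M) :
    ∃ r' : Rc K, r' ≤ r ∧ r'.g = g' ∧ (∀ x ∈ X, r'.d x g' = 0) ∧ r'.d r.g g' ≤ M := by
  classical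
  let h : K → ℕ := fun a => if H : ∃ x ∈ X, a ≤ x then r.d a H.choose else max M (r.d a r.g)
  have hpos : ∀ a, ∀ x ∈ X, a ≤ x → h a = r.d a x := by
    intro a x hx hax
    have H : ∃ x ∈ X, a ≤ x := ⟨x, hx, hax⟩
    have h1 : h a = r.d a H.choose := dif_pos H
    rw [h1]
    exact r.ind hX hd H.choose_spec.1 hx H.choose_spec.2 hax
  have hneg : ∀ a, (¬ ∃ x ∈ X, a ≤ x) → h a = max M (r.d a r.g) := fun a H => dif_neg H
  let d' : K → K → ℕ := fun a b => if b ≤ r.g then r.d a b else if a ≤ r.g then h a else 0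
  have hd1 : ∀ a b, b ≤ r.g → d' a b = r.d a b := fun a b hb => if_pos hb
  have hd2 : ∀ a, a ≤ r.g → d' a g' = h a := fun a ha => by
    simp only [d', if_neg (not_le.2 hg), if_pos ha]
  have hd3 : d' g' g' = 0 := by
    simp only [d', if_neg (not_le.2 hg)]
  have hlow : ∀ z, z ≤ g' → z ≤ r.g ∨ z = g' := fun z hz => hz.lt_or_eq.imp (hg' z) id
  have k1 : ∀ a b, a ≤ b → b ≤ r.g → h a ≤ max (r.d a b) (h b) := by
    intro a b hab hb
    by_cases H : ∃ x ∈ X, b ≤ x
    · obtain ⟨x, hx, hbx⟩ := H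
      rw [hpos b x hx hbx, hpos a x hx (hab.trans hbx)]
      exact r.s1 a b x hab hbx (hX x hx)
    · rw [hneg b H]
      have e1 := r.s1 a b r.g hab hb le_rfl
      by_cases H' : ∃ x ∈ X, a ≤ x
      · obtain ⟨x, hx, hax⟩ := H'
        rw [hpos a x hx hax]
        have e2 := r.s2 a x r.g hax (hX x hx) le_rfl
        have e3 := hM x hx
        omega
      · rw [hneg a H']
        omega
  have k2 : ∀ a b, a ≤ b → b ≤ r.g → r.d a b ≤ max (h a) (h b) := by
    intro a b hab hb
    by_cases H : ∃ x ∈ X, b ≤ x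
    · obtain ⟨x, hx, hbx⟩ := H
      rw [hpos b x hx hbx, hpos a x hx (hab.trans hbx)]
      exact r.s2 a b x hab hbx (hX x hx)
    · rw [hneg b H]
      have e1 := r.s2 a b r.g hab hb le_rfl
      by_cases H' : ∃ x ∈ X, a ≤ x
      · obtain ⟨x, hx, hax⟩ := H'
        rw [hpos a x hx hax]
        have e2 := r.s1 a x r.g hax (hX x hx) le_rfl
        have e3 := hM x hx
        omega
      · rw [hneg a H']
        omega
  let r' : Rc K :=
    { g := g'
      d := d'
      z0 := by
        intro a ha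
        rcases hlow a ha with h1 | rfl
        · rw [hd1 a a h1]
          exact r.z0 a h1
        · exact hd3
      s1 := by
        intro a b c hab hbc hc
        rcases hlow c hc with h1 | rfl
        · rw [hd1 a c h1, hd1 a b (hbc.trans h1), hd1 b c h1]
          exact r.s1 a b c hab hbc h1
        · rcases hlow b hbc with h2 | rfl
          · rw [hd2 a (hab.trans h2), hd1 a b h2, hd2 b h2]
            exact k1 a b hab h2
          · exact le_max_left _ _
      s2 := by
        intro a b c hab hbc hc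
        rcases hlow c hc with h1 | rfl
        · rw [hd1 a c h1, hd1 a b (hbc.trans h1), hd1 b c h1]
          exact r.s2 a b c hab hbc h1
        · rcases hlow b hbc with h2 | rfl
          · rw [hd2 a (hab.trans h2), hd1 a b h2, hd2 b h2]
            exact k2 a b hab h2
          · exact le_max_left _ _ }
  refine ⟨r', ⟨hg.le, fun a b _ hb => hd1 a b hb⟩, rfl, fun x hx => ?_, ?_⟩
  · change d' x g' = 0
    rw [hd2 x (hX x hx), hpos x x hx le_rfl]
    exact hd x hx x hx le_rfl
  · change d' r.g g' ≤ M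
    rw [hd2 r.g le_rfl]
    by_cases H : ∃ x ∈ X, r.g ≤ x
    · obtain ⟨x, hx, hgx⟩ := H
      have : x = r.g := le_antisymm (hX x hx) hgx
      subst this
      rw [hpos _ _ hx le_rfl, r.z0 _ le_rfl]
      exact Nat.zero_le _
    · rw [hneg _ H, r.z0 _ le_rfl]
      simp

/-- The existence of successors. -/
theorem exists_succ [WellFoundedLT K] {lam : Cardinal.{0}} (h0 : ℵ₀ ≤ lam) (hb : Bd lam K)
    (g : K) : ∃ g', g < g' ∧ ∀ z < g', z ≤ g := by
  obtain ⟨b, hb⟩ := hb Unit (fun _ => g) (by rw [mk_unit]; exact one_le_aleph0.trans h0)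
  obtain ⟨g', h1, h2⟩ := WellFounded.has_min (wellFounded_lt (α := K)) {z | g < z} ⟨b, hb ()⟩
  exact ⟨g', h1, fun z hz => not_lt.1 fun h => h2 z h hz⟩

/-- closure under directed families -/
theorem dc_Uc [WellFoundedLT K] {lam : Cardinal.{0}} (hb : Bd lam K) (m : ℕ) :
    DC lam (Uc K m) := by
  classical
  intro ι D hι hne hdir
  obtain ⟨b, hb⟩ := hb ι (fun i => (D i).r.g) hι
  have hU : ({b | ∀ i, (D i).r.g ≤ b} : Set K).Nonempty := ⟨b, fun i => (hb i).le⟩
  obtain ⟨γ, hγ, hmin⟩ := WellFounded.has_min (wellFounded_lt (α := K)) _ hU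
  have hγ : ∀ i, (D i).r.g ≤ γ := hγ
  by_cases hat : ∃ i, (D i).r.g = γ
  · obtain ⟨i, hi⟩ := hat
    refine ⟨D i, fun j => ?_⟩
    obtain ⟨k, hk1, hk2⟩ := hdir i j
    have hk : (D k).r.g = (D i).r.g := le_antisymm ((hγ k).trans hi.ge) hk1.1.1
    refine ⟨⟨(hγ j).trans hi.ge, fun a b hab hb' => ?_⟩, ?_⟩
    · rw [← hk1.1.2 a b hab (hb'.trans ((hγ j).trans hi.ge)), hk2.1.2 a b hab hb']
    · rw [← hk1.1.2 _ _ ((hγ j).trans hi.ge) le_rfl, ← hk]
      exact hk2.2
  · push Not at hat
    have hlt : ∀ i, (D i).r.g < γ := fun i => lt_of_le_of_ne (hγ i) (hat i)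
    have hC : ∀ β < γ, ∃ i, β ≤ (D i).r.g := by
      intro β hβ
      by_contra hcon
      push Not at hcon
      exact hmin β (fun i => (hcon i).le) hβ
    let h : K → ℕ := fun a => if H : ∃ i, a ≤ (D i).r.g then
      max m ((D H.choose).r.d a (D H.choose).r.g) else 0
    have hh : ∀ i a, a ≤ (D i).r.g → h a = max m ((D i).r.d a (D i).r.g) := by
      intro i a ha
      have H : ∃ i, a ≤ (D i).r.g := ⟨i, ha⟩
      have h1 : h a = max m ((D H.choose).r.d a (D H.choose).r.g) := dif_pos H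
      have key : ∀ i k, a ≤ (D i).r.g → D k ≤ D i →
          max m ((D i).r.d a (D i).r.g) = max m ((D k).r.d a (D k).r.g) := by
        intro i k hai hk
        have e1 := (D k).r.s1 a (D i).r.g (D k).r.g hai hk.1.1 le_rfl
        have e2 := (D k).r.s2 a (D i).r.g (D k).r.g hai hk.1.1 le_rfl
        have e3 := hk.2
        have e4 := hk.1.2 a _ hai le_rfl
        omega
      obtain ⟨k, hk1, hk2⟩ := hdir i H.choose
      rw [h1, key i k ha hk1, ← key _ k H.choose_spec hk2]
    let e : K → K → ℕ := fun a β => if H : ∃ i, β ≤ (D i).r.g then (D H.choose).r.d a β else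
      if a < γ then h a else 0
    have hE : ∀ i a β, a ≤ β → β ≤ (D i).r.g → e a β = (D i).r.d a β := by
      intro i a β ha hβ
      have H : ∃ i, β ≤ (D i).r.g := ⟨i, hβ⟩
      have h1 : e a β = (D H.choose).r.d a β := dif_pos H
      obtain ⟨k, hk1, hk2⟩ := hdir i H.choose
      rw [h1, ← hk1.1.2 a β ha hβ, ← hk2.1.2 a β ha H.choose_spec]
    have hNo : ¬ ∃ i, γ ≤ (D i).r.g := fun ⟨i, hi⟩ => absurd (hlt i) (not_lt.2 hi)
    have hG : ∀ a < γ, e a γ = h a := fun a ha => by
      have h1 : e a γ = if a < γ then h a else 0 := dif_neg hNo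
      rw [h1, if_pos ha]
    have hG' : e γ γ = 0 := by
      have h1 : e γ γ = if γ < γ then h γ else 0 := dif_neg hNo
      rw [h1, if_neg (lt_irrefl _)]
    let p : Rc K :=
      { g := γ
        d := e
        z0 := by
          intro a ha
          rcases ha.lt_or_eq with h1 | rfl
          · obtain ⟨i, hi⟩ := hC a h1
            rw [hE i a a le_rfl hi]
            exact (D i).r.z0 a hi
          · exact hG'
        s1 := by
          intro a b c hab hbc hc
          rcases hc.lt_or_eq with h1 | rfl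
          · obtain ⟨i, hi⟩ := hC c h1
            rw [hE i a c (hab.trans hbc) hi, hE i a b hab (hbc.trans hi), hE i b c hbc hi]
            exact (D i).r.s1 a b c hab hbc hi
          · rcases hbc.lt_or_eq with h2 | rfl
            · obtain ⟨i, hi⟩ := hC b h2
              rw [hG a (hab.trans_lt h2), hG b h2, hE i a b hab hi, hh i a (hab.trans hi),
                hh i b hi]
              have := (D i).r.s1 a b (D i).r.g hab hi le_rfl
              omega
            · exact le_max_left _ _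
        s2 := by
          intro a b c hab hbc hc
          rcases hc.lt_or_eq with h1 | rfl
          · obtain ⟨i, hi⟩ := hC c h1
            rw [hE i a c (hab.trans hbc) hi, hE i a b hab (hbc.trans hi), hE i b c hbc hi]
            exact (D i).r.s2 a b c hab hbc hi
          · rcases hbc.lt_or_eq with h2 | rfl
            · obtain ⟨i, hi⟩ := hC b h2
              rw [hG a (hab.trans_lt h2), hG b h2, hE i a b hab hi, hh i a (hab.trans hi),
                hh i b hi]
              have := (D i).r.s2 a b (D i).r.g hab hi le_rfl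
              omega
            · exact le_max_left _ _ }
    refine ⟨⟨p⟩, fun i => ⟨⟨(hlt i).le, fun a β ha hβ => hE i a β ha hβ⟩, ?_⟩⟩
    change e (D i).r.g γ ≤ m
    rw [hG _ (hlt i), hh i _ le_rfl, (D i).r.z0 _ le_rfl]
    simp

/-- extending a condition with a thread -/
theorem Uc.lift [WellFoundedLT K] {lam : Cardinal.{0}} (h0 : ℵ₀ ≤ lam) (hb : Bd lam K) {m : ℕ}
    (q : Uc K m) {r : Rc K} (h : r ≤ q.r) : ∃ q' ≤ q, q'.r ≤ r := by
  obtain ⟨g', h1, h2⟩ := exists_succ h0 hb r.g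
  obtain ⟨r', hr', hg, h3, _⟩ := r.ext h1 h2 {q.r.g} (fun x hx => by rw [mem_singleton_iff.1 hx]; exact h.1)
    (fun x hx y hy _ => by
      rw [mem_singleton_iff.1 hx, mem_singleton_iff.1 hy]
      exact r.z0 _ h.1) (r.d q.r.g r.g) (fun x hx => by rw [mem_singleton_iff.1 hx])
  refine ⟨⟨r'⟩, ⟨hr'.trans h, ?_⟩, hr'⟩
  change r'.d q.r.g r'.g ≤ m
  rw [hg, h3 _ rfl]
  exact Nat.zero_le _

theorem pj_Uc [WellFoundedLT K] {lam : Cardinal.{0}} (h0 : ℵ₀ ≤ lam) (hb : Bd lam K) (m : ℕ) :
    Pj (fun q : Uc K m => q.r) where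
  mono _ _ h := h.1
  lift q r h := q.lift h0 hb h

end Pool.Agent.W873.Ns
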