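import Mathlib
import Pool.Agent.W873.Ns.Basic

set_option autoImplicit false
set_option linter.unusedSectionVars false
set_option linter.unusedVariables false

/-!
# Points of threads and the splitting of a new branch
-/

namespace Pool.Agent.W873.Ns

open Set Cardinal Pool.Agent.Helper669.Forcing
open Pool.Agent.W873.Gmp (for' IsTree IsCofinalBranch TreeProp down_for' for'_left for'_right
  t_unique t_total t_lt t_trans t_pred t_uniq t_ne t_small t_comp meets_dn)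
open Pool.Agent.W873.Gp (not_meets mem_meets_fground)
open Pool.Agent.W873.Td (DC exists_chain Pj pb down_pb mem_pb pj_isTree Bd exists_wo mk_fin_pi
  for'_elim fnot_dn)

variable {K : Type} [LinearOrder K]

/-- `t` and `s` are on the same thread -/
def Th (r : Rc K) (t s : K) : Prop := t ≤ s ∧ s ≤ r.g ∧ r.d t s = 0

theorem Th.refl {r : Rc K} {t : K} (h : t ≤ r.g) : Th r t t := ⟨le_rfl, h, r.z0 t h⟩

theorem Th.trans {r : Rc K} {t s w : K} (h : Th r t s) (h' : Th r s w) : Th r t w := by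
  refine ⟨h.1.trans h'.1, h'.2.1, ?_⟩
  have h1 := r.s1 t s w h.1 h'.1 h'.2.1
  rw [h.2.2, h'.2.2] at h1
  simpa using h1

theorem Th.mono {r r' : Rc K} {t s : K} (h : Th r t s) (hr : r' ≤ r) : Th r' t s :=
  ⟨h.1, h.2.1.trans hr.1, by rw [hr.2 t s h.1 h.2.1]; exact h.2.2⟩

theorem th_of_le {q p : Uc K 0} (h : q ≤ p) : Th q.r p.r.g q.r.g :=
  ⟨h.1.1, le_rfl, Nat.le_zero.1 h.2⟩

theorem le_of_th {q p : Uc K 0} (h : q.r ≤ p.r) (h' : Th q.r p.r.g q.r.g) : q ≤ p :=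
  ⟨h, h'.2.2.le⟩

variable {W L : Type}

/-- the condition `(r, t)` forces that `x` is in the branch -/
def Dn (B : L → Set (Uc K 0)) (r : Rc K) (t : K) (x : L) : Prop :=
  ∀ u : Uc K 0, u.r ≤ r → u.r.d t u.r.g = 0 → u ∈ meets (B x)

theorem Dn.mono {B : L → Set (Uc K 0)} {r r' : Rc K} {t s : K} {x : L} (h : Dn B r t x)
    (hr : r' ≤ r) (hs : Th r' t s) : Dn B r' s x := by
  intro u hu hd
  have h1 : Th u.r s u.r.g := ⟨hs.2.1.trans hu.1, le_rfl, hd⟩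
  exact h u (hu.trans hr) ((hs.mono hu).trans h1).2.2

theorem dn_of_meets {B : L → Set (Uc K 0)} {u : Uc K 0} {x : L} (h : u ∈ meets (B x)) :
    Dn B u.r u.r.g x := fun w hw hd => meets_dn h ⟨hw, hd.le⟩

/-- the two points decide incompatible nodes below `δ` -/
def Dis (R : L → L → Set (Rc K)) (ℓ : L → K → Set (Rc K)) (B : L → Set (Uc K 0)) (δ : K)
    (r : Rc K) (t t' : K) : Prop :=
  ∃ u v a b, a < b ∧ b < δ ∧ (Dn B r t u ∧ Dn B r t' v ∨ Dn B r t' u ∧ Dn B r t v) ∧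
    r ∈ meets (ℓ u a) ∧ r ∈ meets (ℓ v b) ∧ r ∈ fnot (meets (R u v))

variable {R : L → L → Set (Rc K)} {ℓ : L → K → Set (Rc K)} {B : L → Set (Uc K 0)} {q1 : Uc K 0}

theorem Dis.symm {δ : K} {r : Rc K} {t t' : K} (h : Dis R ℓ B δ r t t') : Dis R ℓ B δ r t' t := by
  obtain ⟨u, v, a, b, h1, h2, h3, h4⟩ := h
  exact ⟨u, v, a, b, h1, h2, h3.symm, h4⟩

theorem Dis.mono {δ δ' : K} {r r' : Rc K} {t t' s s' : K} (h : Dis R ℓ B δ r t t') (hδ : δ ≤ δ')
    (hr : r' ≤ r) (hs : Th r' t s) (hs' : Th r' t' s') : Dis R ℓ B δ' r' s s' := by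
  obtain ⟨u, v, a, b, h1, h2, h3, h4, h5, h6⟩ := h
  refine ⟨u, v, a, b, h1, h2.trans_le hδ, ?_, meets_dn h4 hr, meets_dn h5 hr, fnot_dn h6 hr⟩
  rcases h3 with h3 | h3
  · exact Or.inl ⟨h3.1.mono hr hs, h3.2.mono hr hs'⟩
  · exact Or.inr ⟨h3.1.mono hr hs', h3.2.mono hr hs⟩

/-- A new branch `B` of the tree named by `R` and `ℓ`. -/
structure Hy [WellFoundedLT K] (lam : Cardinal.{0}) (W : Type) (R : L → L → Set (Rc K))
    (ℓ : L → K → Set (Rc K)) (B : L → Set (Uc K 0)) (q1 : Uc K 0) : Prop where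
  h0 : ℵ₀ ≤ lam
  hb : Bd lam K
  tree : q1.r ∈ IsTree W R ℓ
  br : q1 ∈ IsCofinalBranch (fun x y => pb (fun q : Uc K 0 => q.r) (R x y))
    (fun x a => pb (fun q : Uc K 0 => q.r) (ℓ x a)) B
  nb : ∀ B' : L → Set (Rc K), ∀ r ≤ q1.r, r ∉ IsCofinalBranch R ℓ B'

variable [WellFoundedLT K] {lam : Cardinal.{0}}

theorem Hy.pj (H : Hy lam W R ℓ B q1) : Pj (fun q : Uc K 0 => q.r) := pj_Uc H.h0 H.hb 0

theorem Hy.unb (H : Hy lam W R ℓ B q1) (a : K) : ∃ b, a < b := by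
  obtain ⟨b, h, _⟩ := exists_succ H.h0 H.hb a
  exact ⟨b, h⟩

theorem Hy.cmp (H : Hy lam W R ℓ B q1) {q : Uc K 0} (hq : q ≤ q1) {x y : L} {a b : K}
    (hab : a < b) (hx : q ∈ meets (B x)) (hy : q ∈ meets (B y)) (hxa : q.r ∈ meets (ℓ x a))
    (hyb : q.r ∈ meets (ℓ y b)) : q.r ∈ meets (R x y) := by
  refine Gp.meets_of_dense fun r hr => ?_
  obtain ⟨q2, hq2, h1⟩ := H.pj.lift q r hr
  obtain ⟨q3, hq3, h2⟩ := mem_fimp.1 (H.br.1 x y) q2 (hq2.trans hq)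
    ⟨meets_dn hx hq2, meets_dn hy hq2⟩
  obtain ⟨q4, hq4, h3⟩ := for'_elim h2
  have h4 : q4.r ≤ r := ((H.pj.mono _ _ hq4).trans (H.pj.mono _ _ hq3)).trans h1
  have h5 : q4.r ≤ q1.r := h4.trans (hr.trans hq.1)
  rcases h3 with h3 | h3
  · have h3 : x = y := h3
    subst h3
    exact absurd (t_unique H.tree h5 (meets_dn hxa (h4.trans hr)) (meets_dn hyb (h4.trans hr)))
      hab.ne
  · obtain ⟨q5, hq5, h6⟩ := for'_elim h3
    have h7 : q5.r ≤ r := (H.pj.mono _ _ hq5).trans h4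
    rcases h6 with h6 | h6
    · exact ⟨q5.r, h7, (mem_pb H.pj).1 h6⟩
    · have := t_lt H.tree (h7.trans (hr.trans hq.1)) ((mem_pb H.pj).1 h6)
        (meets_dn hyb (h7.trans hr)) (meets_dn hxa (h7.trans hr))
      exact absurd (this.trans hab) (lt_irrefl _)

theorem Hy.node (H : Hy lam W R ℓ B q1) {q : Uc K 0} (hq : q ≤ q1) (d : K) :
    ∃ q' ≤ q, ∃ z, q' ∈ meets (B z) ∧ q'.r ∈ meets (ℓ z d) := by
  obtain ⟨q', hq', z, h1, h2⟩ := mem_fex.1 (H.br.2 d) q hq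
  exact ⟨q', hq', z, h1, (mem_pb H.pj).1 h2⟩

/-- extending a point to a condition -/
theorem exists_u (h0 : ℵ₀ ≤ lam) (hb : Bd lam K) {r : Rc K} {t : K} (ht : t ≤ r.g) :
    ∃ u : Uc K 0, u.r ≤ r ∧ Th u.r t u.r.g := by
  obtain ⟨g', h1, h2⟩ := exists_succ h0 hb r.g
  obtain ⟨r', hr', hg, h3, _⟩ := r.ext h1 h2 {t} (fun x hx => by rw [mem_singleton_iff.1 hx]; exact ht)
    (fun x hx y hy _ => by
      rw [mem_singleton_iff.1 hx, mem_singleton_iff.1 hy]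
      exact r.z0 _ ht) (r.d t r.g) (fun x hx => by rw [mem_singleton_iff.1 hx])
  refine ⟨⟨r'⟩, hr', ht.trans (h1.le.trans hg.ge), le_rfl, ?_⟩
  change r'.d t r'.g = 0
  rw [hg]
  exact h3 _ rfl

theorem Hy.dcmp (H : Hy lam W R ℓ B q1) {r : Rc K} (hr : r ≤ q1.r) {t : K}
    (ht : Th r q1.r.g t) {x y : L} {a b : K} (hab : a < b) (hx : Dn B r t x) (hy : Dn B r t y)
    (hxa : r ∈ meets (ℓ x a)) (hyb : r ∈ meets (ℓ y b)) : r ∈ meets (R x y) := by
  refine Gp.meets_of_dense fun r' hr' => ?_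
  obtain ⟨u, hu, hu'⟩ := exists_u H.h0 H.hb (r := r') (t := t) (ht.2.1.trans hr'.1)
  have hur : u.r ≤ r := hu.trans hr'
  refine ⟨u.r, hu, H.cmp (le_of_th (hur.trans hr) ((ht.mono hur).trans hu')) hab
    (hx u hur hu'.2.2) (hy u hur hu'.2.2) (meets_dn hxa hur) (meets_dn hyb hur)⟩

/-- no splitting over points at distance at most `m` -/
def NoSp (R : L → L → Set (Rc K)) (ℓ : L → K → Set (Rc K)) (B : L → Set (Uc K 0)) (m : ℕ)
    (u : Uc K 0) : Prop :=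
  ∀ r' ≤ u.r, ∀ s s', Th r' u.r.g s → Th r' u.r.g s' → s ≤ s' → r'.d s s' ≤ m →
    ∀ δ, ¬ Dis R ℓ B δ r' s s'

theorem NoSp.mono {m : ℕ} {u u' : Uc K 0} (h : NoSp R ℓ B m u) (hu : u' ≤ u) :
    NoSp R ℓ B m u' := fun r' hr' s s' hs hs' hss hd δ =>
  h r' (hr'.trans hu.1) s s' (((th_of_le hu).mono hr').trans hs)
    (((th_of_le hu).mono hr').trans hs') hss hd δ

/-- Some splitting occurs. -/
theorem Hy.spl (H : Hy lam W R ℓ B q1) {q : Uc K 0} (hq : q ≤ q1)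
    (hcon : ∀ m, NoSp R ℓ B m q) : False := by
  have hdis : ∀ r' ≤ q.r, ∀ s s', Th r' q.r.g s → Th r' q.r.g s' → ∀ δ,
      ¬ Dis R ℓ B δ r' s s' := by
    intro r' hr' s s' hs hs' δ hd
    rcases le_total s s' with h | h
    · exact hcon _ r' hr' s s' hs hs' h le_rfl δ hd
    · exact hcon _ r' hr' s' s hs' hs h le_rfl δ hd.symm
  have hqt : ∀ {r : Rc K} {s : K}, r ≤ q.r → Th r q.r.g s → Th r q1.r.g s := fun hr hs =>
    ((th_of_le hq).mono hr).trans hs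
  have key : ∀ r ≤ q.r, ∀ s s', Th r q.r.g s → Th r q.r.g s' → ∀ x y a b, a < b → Dn B r s x →
      Dn B r s' y → r ∈ meets (ℓ x a) → r ∈ meets (ℓ y b) → r ∈ meets (R x y) := by
    intro r hr s s' hs hs' x y a b hab hx hy hxa hyb
    by_contra hn
    obtain ⟨r', hr', h1⟩ := not_meets hn
    obtain ⟨δ, hδ⟩ := H.unb b
    exact hdis r' (hr'.trans hr) s s' (hs.mono hr') (hs'.mono hr') δ ⟨x, y, a, b, hab, hδ,
      Or.inl ⟨hx.mono hr' (Th.refl (hs.2.1.trans hr'.1)),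
        hy.mono hr' (Th.refl (hs'.2.1.trans hr'.1))⟩, meets_dn hxa hr', meets_dn hyb hr', h1⟩
  let B' : L → Set (Rc K) := fun x => {r | r ≤ q.r ∧ ∃ s, Th r q.r.g s ∧ Dn B r s x}
  have hBd : ∀ x, Down (B' x) := by
    rintro x r ⟨h1, s, h2, h3⟩ r' hr'
    exact ⟨hr'.trans h1, s, h2.mono hr', h3.mono hr' (Th.refl (h2.2.1.trans hr'.1))⟩
  refine H.nb B' q.r hq.1 ⟨fun x y => ?_, fun a => ?_⟩
  · refine mem_fimp.2 fun r hr h1 => ?_
    obtain ⟨r1, hr1, hr1q, s, hs, hxs⟩ := exists_of_meets (hBd x) h1.1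
    obtain ⟨r2, hr2, hr2q, s', hs', hys⟩ := exists_of_meets (hBd y) (meets_dn h1.2 hr1)
    have hr0 : r2 ≤ q1.r := (hr2.trans hr1).trans (hr.trans hq.1)
    obtain ⟨r3, hr3, a, ha⟩ := t_total H.tree hr0 x
    obtain ⟨r4, hr4, b, hb⟩ := t_total H.tree (hr3.trans hr0) y
    have ha := meets_dn ha hr4
    have h4 : r4 ≤ r2 := hr4.trans hr3
    have hr4q : r4 ≤ q.r := h4.trans hr2q
    have hs := hs.mono (h4.trans hr2)
    have hs' := hs'.mono h4
    have hx : Dn B r4 s x := hxs.mono (h4.trans hr2) (Th.refl hs.2.1)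
    have hy : Dn B r4 s' y := hys.mono h4 (Th.refl hs'.2.1)
    refine ⟨r4, (h4.trans hr2).trans hr1, ?_⟩
    rcases lt_trichotomy a b with hab | hab | hab
    · exact for'_right (down_for' _ _) (for'_left (down_meets _)
        (key r4 hr4q s s' hs hs' x y a b hab hx hy ha hb))
    · subst hab
      obtain ⟨d, hd⟩ := H.unb a
      refine for'_left (down_fground _) ?_
      obtain ⟨u, hu, hu'⟩ := exists_u H.h0 H.hb (r := r4) (t := s') hs'.2.1
      have huq1 : u ≤ q1 := le_of_th (hu.trans (hr4q.trans hq.1))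
        (((hqt hr4q hs').mono hu).trans hu')
      obtain ⟨w, hw, z, hz, hzd⟩ := H.node huq1 d
      have hwr : w.r ≤ r4 := hw.1.trans hu
      have hwq : w.r ≤ q.r := hwr.trans hr4q
      have hsw : Th w.r s' w.r.g := (hu'.mono hw.1).trans (th_of_le hw)
      have e1 : w.r ∈ meets (R x z) := key w.r hwq s w.r.g (hs.mono hwr)
        ((hs'.mono hwr).trans hsw) x z a d hd (hx.mono hwr (Th.refl (hs.mono hwr).2.1))
        (dn_of_meets hz) (meets_dn ha hwr) hzd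
      have e2 : w.r ∈ meets (R y z) := H.cmp (hw.trans huq1) hd
        (hy w hwr hsw.2.2) hz (meets_dn hb hwr) hzd
      have e3 : x = y := t_uniq H.tree ((hw.trans huq1).1) e1 e2 (meets_dn ha hwr)
        (meets_dn hb hwr)
      exact e3
    · exact for'_right (down_for' _ _) (for'_right (down_meets _)
        (key r4 hr4q s' s hs' hs y x b a hab hy hx hb ha))
  · refine mem_fex.2 fun r hr => ?_
    obtain ⟨u, hu, hur⟩ := H.pj.lift q r hr
    obtain ⟨w, hw, z, hz, hza⟩ := H.node (hu.trans hq) a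
    exact ⟨w.r, hw.1.trans hur, z, meets_of_mem ⟨(hw.trans hu).1, w.r.g, th_of_le (hw.trans hu),
      dn_of_meets hz⟩, hza⟩

/-- Splitting occurs at bounded distance. -/
theorem Hy.per (H : Hy lam W R ℓ B q1) : ∃ m, ∃ u1 ≤ q1, ∀ u ≤ u1, ¬ NoSp R ℓ B m u := by
  by_contra hcon
  push Not at hcon
  have hcl : DC lam (Uc K 0) := dc_Uc H.hb 0
  obtain ⟨M, hM1, hM2, hM3⟩ := exists_chain H.h0 hcl (J := ℕ)
    (fun j => (mk_set_le _).trans (by rw [mk_nat]; exact H.h0)) q1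
    (fun j _ m' => NoSp R ℓ B j m') (by
    intro j m hm
    obtain ⟨u, hu, h⟩ := hcon j m hm
    exact ⟨u, hu, h⟩)
  obtain ⟨mi, hmi⟩ := hcl.lb (J := ℕ) (by rw [mk_nat]; exact H.h0) M hM2
  refine H.spl ((hmi 0).trans (hM1 0)) fun m => ?_
  obtain ⟨_, _, _, _, h⟩ := hM3 m
  exact h.mono (hmi m)

end Pool.Agent.W873.Ns
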