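import Mathlib
import Pool.Agent.W873.Ns.Thr

set_option autoImplicit false
set_option linter.unusedSectionVars false
set_option linter.unusedVariables false

/-!
# A tree of threads over one system
-/

namespace Pool.Agent.W873.Ns

open Set Cardinal Pool.Agent.Helper669.Forcing
open Pool.Agent.W873.Gmp (for' IsTree IsCofinalBranch TreeProp down_for' for'_left for'_right
  t_unique t_total t_lt t_trans t_pred t_uniq t_ne t_small t_comp meets_dn)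
open Pool.Agent.W873.Gp (not_meets mem_meets_fground)
open Pool.Agent.W873.Td (DC exists_chain Pj pb down_pb mem_pb pj_isTree Bd exists_wo mk_fin_pi
  for'_elim fnot_dn)

variable {K : Type} [LinearOrder K]

/-- `t` is a point of the thread of `u1` at distance at most `m` from the top of `r` -/
def Sx (m : ℕ) (u1 : Uc K 0) (r : Rc K) (t : K) : Prop :=
  r ≤ u1.r ∧ Th r u1.r.g t ∧ r.d t r.g ≤ m

theorem Sx.mono {m : ℕ} {u1 : Uc K 0} {c c' : Uc K m} {t : K} (h : Sx m u1 c.r t) (hc : c' ≤ c) :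
    Sx m u1 c'.r t := by
  refine ⟨hc.1.trans h.1, h.2.1.mono hc.1, ?_⟩
  have h1 := c'.r.s1 t c.r.g c'.r.g h.2.1.2.1 hc.1.1 le_rfl
  rw [hc.1.2 _ _ h.2.1.2.1 le_rfl] at h1
  exact h1.trans (max_le h.2.2 hc.2)

/-- conditions with a point -/
structure Wc (m : ℕ) (u1 : Uc K 0) where
  c : Uc K m
  t : K
  ok : Sx m u1 c.r t

instance (m : ℕ) (u1 : Uc K 0) : Preorder (Wc m u1) where
  le q p := q.c ≤ p.c ∧ Th q.c.r p.t q.t
  le_refl p := ⟨le_rfl, Th.refl p.ok.2.1.2.1⟩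
  le_trans p q s h h' := ⟨h.1.trans h'.1, (h'.2.mono h.1.1).trans h.2⟩

variable [WellFoundedLT K] {lam : Cardinal.{0}}

theorem dc_Wc (h0 : ℵ₀ ≤ lam) (hb : Bd lam K) (m : ℕ) (u1 : Uc K 0) : DC lam (Wc m u1) := by
  intro ι D hι hne hdir
  obtain ⟨c, hc⟩ := dc_Uc hb m ι (fun i => (D i).c) hι hne fun i j => by
    obtain ⟨k, h1, h2⟩ := hdir i j
    exact ⟨k, h1.1, h2.1⟩
  obtain ⟨g', hg1, hg2⟩ := exists_succ h0 hb c.r.g
  have hX : ∀ x ∈ range fun i => (D i).t, x ≤ c.r.g := by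
    rintro _ ⟨i, rfl⟩
    exact (D i).ok.2.1.2.1.trans (hc i).1.1
  have hd : ∀ x ∈ range fun i => (D i).t, ∀ y ∈ range fun i => (D i).t, x ≤ y →
      c.r.d x y = 0 := by
    rintro _ ⟨i, rfl⟩ _ ⟨j, rfl⟩ hxy
    obtain ⟨k, h1, h2⟩ := hdir i j
    have e1 := h1.2
    have e2 := h2.2
    have e3 := (D k).c.r.s2 (D i).t (D j).t (D k).t hxy e2.1 e2.2.1
    rw [e1.2.2, e2.2.2] at e3
    change c.r.d (D i).t (D j).t = 0
    rw [(hc k).1.2 _ _ hxy (e2.1.trans e2.2.1)]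
    simpa using e3
  have hM : ∀ x ∈ range fun i => (D i).t, c.r.d x c.r.g ≤ m := by
    rintro _ ⟨i, rfl⟩
    exact ((D i).ok.mono (hc i)).2.2
  obtain ⟨r', hr', hg, h3, h4⟩ := c.r.ext hg1 hg2 _ hX hd m hM
  obtain ⟨i0⟩ := hne
  have hle : (⟨r'⟩ : Uc K m) ≤ c := ⟨hr', by
    change r'.d c.r.g r'.g ≤ m
    rw [hg]
    exact h4⟩
  have hth : ∀ i, Th r' (D i).t g' := fun i => ⟨(hX _ ⟨i, rfl⟩).trans hg1.le, hg.ge, h3 _ ⟨i, rfl⟩⟩
  have hok : Sx m u1 r' g' := by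
    have h5 := ((D i0).ok.mono (hc i0)).mono hle
    refine ⟨h5.1, h5.2.1.trans (hth i0), ?_⟩
    rw [hg, r'.z0 g' hg.ge]
    exact Nat.zero_le _
  exact ⟨⟨⟨r'⟩, g', hok⟩, fun i => ⟨hle.trans (hc i), hth i⟩⟩

variable {W L : Type} {R : L → L → Set (Rc K)} {ℓ : L → K → Set (Rc K)} {B : L → Set (Uc K 0)}
  {q1 : Uc K 0}

/-- one splitting -/
theorem split1 (h0 : ℵ₀ ≤ lam) (hb : Bd lam K) {m : ℕ} {u1 : Uc K 0}
    (hper : ∀ u ≤ u1, ¬ NoSp R ℓ B m u) (w : Wc m u1) :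
    ∃ w' ≤ w, ∃ s, Sx m u1 w'.c.r s ∧ Th w'.c.r w.t s ∧ ∃ δ, Dis R ℓ B δ w'.c.r s w'.t := by
  obtain ⟨g1, hg1, hg2⟩ := exists_succ h0 hb w.c.r.g
  obtain ⟨r1, hr1, hg, h1, h2⟩ := w.c.r.ext hg1 hg2 {w.t}
    (fun x hx => by rw [mem_singleton_iff.1 hx]; exact w.ok.2.1.2.1)
    (fun x hx y hy _ => by
      rw [mem_singleton_iff.1 hx, mem_singleton_iff.1 hy]
      exact w.c.r.z0 _ w.ok.2.1.2.1) m
    (fun x hx => by rw [mem_singleton_iff.1 hx]; exact w.ok.2.2)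
  subst hg
  have ht1 : Th r1 w.t r1.g := ⟨w.ok.2.1.2.1.trans hg1.le, le_rfl, h1 _ rfl⟩
  have hu1 : (⟨r1⟩ : Uc K 0) ≤ u1 := le_of_th (hr1.trans w.ok.1) ((w.ok.2.1.mono hr1).trans ht1)
  have h3 := hper _ hu1
  unfold NoSp at h3
  push Not at h3
  obtain ⟨r2, hr2, s, s', hs, hs', hss, hds, δ, hδ⟩ := h3
  have hs : Th r2 r1.g s := hs
  have hs' : Th r2 r1.g s' := hs'
  have hr2 : r2 ≤ r1 := hr2
  obtain ⟨g2, hg3, hg4⟩ := exists_succ h0 hb r2.g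
  obtain ⟨r3, hr3, hg', h4, h5⟩ := r2.ext hg3 hg4 {s'}
    (fun x hx => by rw [mem_singleton_iff.1 hx]; exact hs'.2.1)
    (fun x hx y hy _ => by
      rw [mem_singleton_iff.1 hx, mem_singleton_iff.1 hy]
      exact r2.z0 _ hs'.2.1) (r2.d s' r2.g)
    (fun x hx => by rw [mem_singleton_iff.1 hx])
  subst hg'
  have hr32 : r3 ≤ r1 := hr3.trans hr2
  have hr31 : r3 ≤ w.c.r := hr32.trans hr1
  have e0 : r3.d s' r3.g = 0 := h4 _ rfl
  have e1 : Th r3 s' r3.g := ⟨hs'.2.1.trans hg3.le, le_rfl, e0⟩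
  have e2 : Th r3 r1.g r3.g := (hs'.mono hr3).trans e1
  have e3 : r3.d w.c.r.g r3.g ≤ m := by
    have e4 := r3.s1 w.c.r.g r1.g r3.g hr1.1 e2.1 le_rfl
    rw [e2.2.2, hr32.2 _ _ hr1.1 le_rfl] at e4
    exact e4.trans (max_le h2 (Nat.zero_le _))
  have hok : Sx m u1 r3 s' := ⟨hr31.trans w.ok.1, ((w.ok.2.1.mono hr31).trans
    (ht1.mono hr32)).trans (hs'.mono hr3), by rw [e0]; exact Nat.zero_le _⟩
  refine ⟨⟨⟨r3⟩, s', hok⟩, ⟨⟨hr31, e3⟩, (ht1.mono hr32).trans (hs'.mono hr3)⟩, s,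
    ⟨hr31.trans w.ok.1, ((w.ok.2.1.mono hr31).trans (ht1.mono hr32)).trans (hs.mono hr3), ?_⟩,
    (ht1.mono hr32).trans (hs.mono hr3), δ, ?_⟩
  · have e5 := r3.s1 s s' r3.g hss e1.1 le_rfl
    rw [e0, hr3.2 s s' hss hs'.2.1] at e5
    exact e5.trans (max_le hds (Nat.zero_le _))
  · exact hδ.mono le_rfl hr3 (Th.refl (hs.2.1.trans hr3.1)) (Th.refl (hs'.2.1.trans hr3.1))

/-- many splittings -/
theorem split2 (h0 : ℵ₀ ≤ lam) (hb : Bd lam K) {m : ℕ} {u1 : Uc K 0}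
    (hper : ∀ u ≤ u1, ¬ NoSp R ℓ B m u) {Λ : Type} [Nonempty Λ] (hΛ : #Λ ≤ lam) (c : Uc K m)
    {t : K} (ht : Sx m u1 c.r t) :
    ∃ c' ≤ c, ∃ (s : Λ → K) (δ : K), (∀ i, Sx m u1 c'.r (s i) ∧ Th c'.r t (s i)) ∧
      ∀ i j, i ≠ j → Dis R ℓ B δ c'.r (s i) (s j) := by
  obtain ⟨_, _⟩ := exists_wo Λ
  have hcl := dc_Wc h0 hb m u1
  obtain ⟨M, hM1, hM2, hM3⟩ := exists_chain h0 hcl (J := Λ)
    (fun j => (mk_set_le _).trans hΛ) ⟨c, t, ht⟩
    (fun j w w' => ∃ s, Sx m u1 w'.c.r s ∧ Th w'.c.r w.t s ∧ ∃ δ, Dis R ℓ B δ w'.c.r s w'.t) (by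
    intro j w hw
    exact split1 h0 hb hper w)
  obtain ⟨mi, hmi⟩ := hcl.lb hΛ M hM2
  choose w hw1 hw2 hw3 s hs hts δ hδ using hM3
  obtain ⟨Δ, hΔ⟩ := hb Λ δ hΛ
  have key : ∀ i j, i < j → Dis R ℓ B Δ mi.c.r (s i) (s j) := by
    intro i j hij
    refine (hδ i).mono (hΔ i).le (hmi i).1.1 (Th.refl ((hs i).2.1.2.1.trans (hmi i).1.1.1)) ?_
    have e1 : Th (w j).c.r (M i).t (w j).t := (hw2 j i hij).2
    exact ((e1.mono (hw3 j).1.1).trans (hts j)).mono (hmi j).1.1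
  refine ⟨mi.c, (hmi (Classical.arbitrary Λ)).1.trans (hM1 _).1, s, Δ, fun i =>
    ⟨(hs i).mono (hmi i).1, ?_⟩, fun i j hij => ?_⟩
  · have e1 : Th (w i).c.r t (w i).t := (hw1 i).2
    exact ((e1.mono (hw3 i).1.1).trans (hts i)).mono (hmi i).1.1
  · rcases lt_or_gt_of_ne hij with h | h
    · exact key i j h
    · exact (key j i h).symm

/-- many splittings of many points -/
theorem split3 (h0 : ℵ₀ ≤ lam) (hb : Bd lam K) {m : ℕ} {u1 : Uc K 0}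
    (hper : ∀ u ≤ u1, ¬ NoSp R ℓ B m u) {Λ : Type} [Nonempty Λ] (hΛ : #Λ ≤ lam) {J : Type}
    [Nonempty J] (hJ : #J ≤ lam) (c : Uc K m) {t : J → K} (ht : ∀ j, Sx m u1 c.r (t j)) :
    ∃ c' ≤ c, ∃ (s : J → Λ → K) (δ : K), (∀ j i, Sx m u1 c'.r (s j i) ∧ Th c'.r (t j) (s j i)) ∧
      ∀ j i i', i ≠ i' → Dis R ℓ B δ c'.r (s j i) (s j i') := by
  obtain ⟨_, _⟩ := exists_wo J
  have hcl := dc_Uc hb m
  obtain ⟨M, hM1, hM2, hM3⟩ := exists_chain h0 hcl (J := J)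
    (fun j => (mk_set_le _).trans hJ) c
    (fun j _ c' => ∃ (s : Λ → K) (δ : K), (∀ i, Sx m u1 c'.r (s i) ∧ Th c'.r (t j) (s i)) ∧
      ∀ i i', i ≠ i' → Dis R ℓ B δ c'.r (s i) (s i')) (by
    intro j c' hc'
    exact split2 h0 hb hper hΛ c' ((ht j).mono hc'))
  obtain ⟨mi, hmi⟩ := hcl.lb hJ M hM2
  choose c' hc1 hc2 hc3 s δ hs hδ using hM3
  obtain ⟨Δ, hΔ⟩ := hb J δ hJ
  refine ⟨mi, (hmi (Classical.arbitrary J)).trans (hM1 _), s, Δ, fun j i =>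
    ⟨(hs j i).1.mono (hmi j), (hs j i).2.mono (hmi j).1⟩, fun j i i' hii => ?_⟩
  exact (hδ j i i' hii).mono (hΔ j).le (hmi j).1
    (Th.refl ((hs j i).1.2.1.2.1.trans (hmi j).1.1))
    (Th.refl ((hs j i').1.2.1.2.1.trans (hmi j).1.1))

/-- the limit -/
theorem Hy.limit {Λ : Type} [Nonempty Λ] (hΛ : #Λ ≤ lam) (H : Hy lam W R ℓ B q1) :
    ∃ (m : ℕ) (c : Uc K m) (P : ℕ → (ℕ → Λ) → K) (Δ : K), c.r ≤ q1.r ∧
      (∀ n F, Th c.r q1.r.g (P n F) ∧ c.r.d (P n F) c.r.g ≤ m) ∧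
      (∀ n k F, n ≤ k → Th c.r (P n F) (P k F)) ∧
      ∀ F F', F ≠ F' → ∃ n, Dis R ℓ B Δ c.r (P n F) (P n F') := by
  obtain ⟨m, u1, hu1, hper⟩ := H.per
  have h0 := H.h0
  have hb := H.hb
  have hcl := dc_Uc hb m
  let S : ℕ → Type := fun n => {p : Uc K m × ((Fin n → Λ) → K) // ∀ f, Sx m u1 p.1.r (p.2 f)}
  have hstep : ∀ n (s : S n), ∃ s' : S (n + 1), s'.1.1 ≤ s.1.1 ∧
      (∀ f : Fin (n + 1) → Λ, Th s'.1.1.r (s.1.2 (Fin.init f)) (s'.1.2 f)) ∧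
      ∃ δ, ∀ f f' : Fin (n + 1) → Λ, Fin.init f = Fin.init f' →
        f (Fin.last n) ≠ f' (Fin.last n) → Dis R ℓ B δ s'.1.1.r (s'.1.2 f) (s'.1.2 f') := by
    rintro n ⟨⟨c, t⟩, ht⟩
    obtain ⟨c', hc', s, δ, h1, h2⟩ := split3 h0 hb hper hΛ (J := Fin n → Λ)
      (mk_fin_pi h0 (fun _ => Λ) (fun _ => hΛ) n) c ht
    refine ⟨⟨(c', fun f => s (Fin.init f) (f (Fin.last n))), fun f => (h1 _ _).1⟩, hc',
      fun f => (h1 _ _).2, δ, fun f f' hff hne => ?_⟩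
    change Dis R ℓ B δ c'.r (s (Fin.init f) (f (Fin.last n))) (s (Fin.init f') (f' (Fin.last n)))
    rw [hff]
    exact h2 _ _ _ hne
  choose nx hnx1 hnx2 δ hδ using hstep
  have hst : Sx m u1 u1.r u1.r.g := ⟨le_rfl, Th.refl le_rfl, by
    rw [u1.r.z0 _ le_rfl]
    exact Nat.zero_le _⟩
  let s : (n : ℕ) → S n := fun n => Nat.rec ⟨(⟨u1.r⟩, fun _ => u1.r.g), fun _ => hst⟩
    (fun n s => nx n s) n
  have hs : ∀ n, s (n + 1) = nx n (s n) := fun n => rfl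
  have hle : ∀ n, (s (n + 1)).1.1 ≤ (s n).1.1 := fun n => hnx1 n (s n)
  have hmono : ∀ m n, m ≤ n → (s n).1.1 ≤ (s m).1.1 := by
    intro m n hmn
    induction n, hmn using Nat.le_induction with
    | base => exact le_rfl
    | succ n _ ih => exact (hle n).trans ih
  obtain ⟨c, hc⟩ := hcl.lb (J := ℕ) (by rw [mk_nat]; exact h0) (fun n => (s n).1.1)
    fun j' j hj => hmono j' j hj.le
  let P : ℕ → (ℕ → Λ) → K := fun n F => (s n).1.2 fun i => F i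
  have hP : ∀ n F, Sx m u1 c.r (P n F) := fun n F => ((s n).2 _).mono (hc n)
  have hPs : ∀ n F, Th c.r (P n F) (P (n + 1) F) := by
    intro n F
    have h1 := hnx2 n (s n) (fun i : Fin (n + 1) => F i)
    have h2 : (Fin.init fun i : Fin (n + 1) => F i) = fun i : Fin n => F i := rfl
    rw [h2] at h1
    exact h1.mono (hc (n + 1)).1
  obtain ⟨Δ, hΔ⟩ := hb ℕ (fun n => δ n (s n)) (by rw [mk_nat]; exact h0)
  refine ⟨m, c, P, Δ, ((hP 0 fun _ => Classical.arbitrary Λ).1).trans hu1.1, fun n F => ⟨?_,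
    (hP n F).2.2⟩, fun n k F hnk => ?_, fun F F' hne => ?_⟩
  · exact ((th_of_le hu1).mono (hP n F).1).trans (hP n F).2.1
  · induction k, hnk using Nat.le_induction with
    | base => exact Th.refl (hP n F).2.1.2.1
    | succ k _ ih => exact ih.trans (hPs k F)
  · classical
    have hex : ∃ n, F n ≠ F' n := by
      by_contra hcon
      push Not at hcon
      exact hne (funext hcon)
    have hmin : ∀ i < Nat.find hex, F i = F' i := fun i hi => not_not.1 (Nat.find_min hex hi)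
    have hsp := Nat.find_spec hex
    set n := Nat.find hex with hn
    refine ⟨n + 1, ?_⟩
    have h1 := hδ n (s n) (fun i : Fin (n + 1) => F i) (fun i : Fin (n + 1) => F' i)
      (funext fun i => hmin i.1 i.2) hsp
    exact h1.mono (hΔ n).le (hc (n + 1)).1 (Th.refl (hP (n + 1) F).2.1.2.1)
      (Th.refl (hP (n + 1) F').2.1.2.1)

/-- No new branch. -/
theorem Hy.false {Λ : Type} [Nonempty Λ] (hΛ : #Λ ≤ lam) (hs : ∀ a : K, #(Iio a) ≤ lam)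
    (hK : lam < #K) (hW : #W ≤ lam) (φ : K ↪ (ℕ → Λ)) (H : Hy lam W R ℓ B q1) : False := by
  classical
  obtain ⟨m, c, P, Δ, hcq, hP, hPP, hdis⟩ := H.limit hΛ
  have h0 := H.h0
  have hb := H.hb
  have hcl : DC lam (Uc K 0) := dc_Uc hb 0
  obtain ⟨r0, hr0, E, hE, hcov⟩ := t_small H.tree hcq Δ
  -- conditions above all points
  have hup : ∀ (F : ℕ → Λ) (r : Rc K), r ≤ c.r → ∃ u : Uc K 0, u.r ≤ r ∧
      ∀ n, Th u.r (P n F) u.r.g := by
    intro F r hr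
    obtain ⟨g', hg1, hg2⟩ := exists_succ h0 hb r.g
    have hX : ∀ x ∈ range fun n => P n F, x ≤ r.g := by
      rintro _ ⟨n, rfl⟩
      exact (hP n F).1.2.1.trans hr.1
    obtain ⟨r', hr', hg, h3, _⟩ := r.ext hg1 hg2 (range fun n => P n F) hX (by
      rintro _ ⟨n, rfl⟩ _ ⟨k, rfl⟩ hxy
      change r.d (P n F) (P k F) = 0
      rcases le_total n k with h | h
      · exact ((hPP n k F h).mono hr).2.2
      · have e1 := (hPP k n F h).mono hr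
        have e2 : P n F = P k F := le_antisymm hxy e1.1
        rw [e2]
        exact r.z0 _ (hX _ ⟨k, rfl⟩)) (max m (r.d c.r.g r.g)) (by
      rintro _ ⟨n, rfl⟩
      change r.d (P n F) r.g ≤ _
      have e1 := r.s1 (P n F) c.r.g r.g (hP n F).1.2.1 hr.1 le_rfl
      rw [hr.2 _ _ (hP n F).1.2.1 le_rfl] at e1
      exact e1.trans (max_le_max (hP n F).2 le_rfl))
    subst hg
    exact ⟨⟨r'⟩, hr', fun n => ⟨(hX _ ⟨n, rfl⟩).trans hg1.le, le_rfl, h3 _ ⟨n, rfl⟩⟩⟩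
  let Φ : K → Uc K 0 → Uc K 0 → Prop := fun j _ c' => ∃ p w z, (∀ n, Th c'.r (P n (φ j)) p) ∧
    Dn B c'.r p z ∧ c'.r ∈ meets (ℓ z Δ) ∧ c'.r ∈ meets (E w z)
  obtain ⟨M, hM1, hM2, hM3⟩ := exists_chain h0 hcl (J := K) hs (⟨r0⟩ : Uc K 0) Φ (by
    intro j c1 hc1
    have hc1r : c1.r ≤ r0 := hc1.1
    obtain ⟨u, hu, hu'⟩ := hup (φ j) c1.r (hc1r.trans hr0)
    have huq : u ≤ q1 := le_of_th (hu.trans (hc1r.trans (hr0.trans hcq)))
      (((hP 0 (φ j)).1.mono (hu.trans (hc1r.trans hr0))).trans (hu' 0))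
    obtain ⟨v, hv, z, hz, hzd⟩ := H.node huq Δ
    have hvr : v.r ≤ r0 := hv.1.trans (hu.trans hc1r)
    obtain ⟨s, hsv, w, hw⟩ := hcov z v.r hvr hzd
    obtain ⟨c2, hc2, hc2s⟩ := c1.lift h0 hb (r := s) (hsv.trans (hv.1.trans hu))
    have hc2v : c2.r ≤ v.r := hc2s.trans hsv
    refine ⟨c2, hc2, v.r.g, w, z, fun n => ?_, ?_, meets_dn hzd hc2v, meets_dn hw hc2s⟩
    · exact (((hu' n).mono hv.1).trans (th_of_le hv)).mono hc2v
    · exact (dn_of_meets hz).mono hc2v (Th.refl hc2v.1))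
  choose m' hm1 hm2 hm3 p w z hp hz hzd hw using hM3
  have hni : ¬ Function.Injective w := fun h => absurd (mk_le_of_injective h)
    (not_le.2 (hW.trans_lt hK))
  unfold Function.Injective at hni
  push Not at hni
  obtain ⟨j, j', hww, hne⟩ := hni
  have key : ∀ j j', w j = w j' → j < j' → False := by
    intro j j' hww hlt
    have hle : M j' ≤ M j := hM2 j j' hlt
    have hMc : (M j').r ≤ c.r := ((hM1 j').1).trans hr0
    have hrr : (M j').r ≤ q1.r := hMc.trans hcq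
    have hzz : z j = z j' := by
      refine IsFun.unique (down_IsFun E r0 hE (M j').r (hM1 j').1) (meets_dn (hw j) hle.1) ?_
      rw [hww]
      exact hw j'
    have hne' : φ j ≠ φ j' := fun h => hlt.ne (φ.injective h)
    obtain ⟨n, u, v, a, b, hab, hbδ, h1, hua, hvb, hn⟩ := hdis _ _ hne'
    have hp1 : Th (M j').r (P n (φ j)) (p j) := (hp j n).mono hle.1
    have hp2 : Th (M j').r (P n (φ j')) (p j') := hp j' n
    have hq1 : Th (M j').r q1.r.g (p j) := ((hP n (φ j)).1.mono hMc).trans hp1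
    have hq2 : Th (M j').r q1.r.g (p j') := ((hP n (φ j')).1.mono hMc).trans hp2
    have hz1 : Dn B (M j').r (p j) (z j') := by
      rw [← hzz]
      exact (hz j).mono hle.1 (Th.refl hp1.2.1)
    have hz2 : Dn B (M j').r (p j') (z j') := hz j'
    have hzd' : (M j').r ∈ meets (ℓ (z j') Δ) := hzd j'
    have hua' := meets_dn hua hMc
    have hvb' := meets_dn hvb hMc
    rcases h1 with ⟨h1, h2⟩ | ⟨h1, h2⟩
    · have e1 := H.dcmp hrr hq1 (hab.trans hbδ) (h1.mono hMc hp1) hz1 hua' hzd'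
      have e2 := H.dcmp hrr hq2 hbδ (h2.mono hMc hp2) hz2 hvb' hzd'
      exact hn (M j').r hMc (t_comp H.tree hrr e1 e2 hua' hvb' hab)
    · have e1 := H.dcmp hrr hq2 (hab.trans hbδ) (h1.mono hMc hp2) hz2 hua' hzd'
      have e2 := H.dcmp hrr hq1 hbδ (h2.mono hMc hp1) hz1 hvb' hzd'
      exact hn (M j').r hMc (t_comp H.tree hrr e1 e2 hua' hvb' hab)
  rcases lt_or_gt_of_ne hne with h | h
  · exact key j j' hww h
  · exact key j' j hww.symm h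

end Pool.Agent.W873.Ns
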