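import Mathlib
import Pool.Agent.W873.Ns.Fus

set_option autoImplicit false
set_option linter.unusedSectionVars false
set_option linter.unusedVariables false

/-!
# The tree property after adding a subadditive function
-/

namespace Pool.Agent.W873.Ns

open Set Cardinal Pool.Agent.Helper669.Forcing
open Pool.Agent.W873.Gmp (for' IsTree IsCofinalBranch TreeProp down_for' for'_left for'_right
  t_unique t_total t_lt t_trans t_pred t_uniq t_ne t_small t_comp meets_dn)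
open Pool.Agent.W873.Gp (not_meets mem_meets_fground)
open Pool.Agent.W873.Td (DC exists_chain Pj pb down_pb mem_pb pj_isTree Bd exists_wo mk_fin_pi
  for'_elim fnot_dn Kl Ll bd_Kl iio_Kl iio_Ll lt_Kl exists_emb down_isTree)

variable {lam : Cardinal.{0}}

theorem nonempty_Rc (h0 : ℵ₀ ≤ lam) : Nonempty (Rc (Kl lam)) := by
  have : Nonempty (Kl lam) := by
    rw [← mk_ne_zero_iff]
    exact (lt_of_le_of_lt (zero_le) lt_Kl).ne'
  obtain ⟨a⟩ := this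
  exact ⟨⟨a, fun _ _ => 0, fun _ _ => rfl, fun _ _ _ _ _ _ => Nat.zero_le _,
    fun _ _ _ _ _ _ => Nat.zero_le _⟩⟩

/-- the tree property is kept -/
theorem treeProp_R (h0 : ℵ₀ ≤ lam) (h1 : lam < lam ^ ℵ₀)
    (H : ∀ (Q : Type) [Preorder Q], DC lam Q → ∀ q : Q, q ∈ TreeProp Q (Kl lam) (Ll lam))
    (r : Rc (Kl lam)) : r ∈ TreeProp (Rc (Kl lam)) (Kl lam) (Ll lam) := by
  intro L R ℓ
  refine mem_fimp.2 fun r0 _ hr0 => ?_
  by_contra hcon
  push Not at hcon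
  have h2 := hcon r0 le_rfl
  rw [mem_fex] at h2
  push Not at h2
  obtain ⟨r1, hr1, h3⟩ := h2
  have hT : r1 ∈ IsTree (Ll lam) R ℓ := down_isTree R ℓ r0 hr0 r1 hr1
  have hcl : DC lam (Uc (Kl lam) 0) := dc_Uc (bd_Kl h0) 0
  have hpj : Pj (fun q : Uc (Kl lam) 0 => q.r) := pj_Uc h0 (bd_Kl h0) 0
  obtain ⟨q1, hq1, h4⟩ := mem_fimp.1 (H (Uc (Kl lam) 0) hcl ⟨r1⟩ L _ _) ⟨r1⟩ le_rfl
    (pj_isTree hpj (q := ⟨r1⟩) hT)
  obtain ⟨q2, hq2, B, hB⟩ := mem_fex.1 h4 q1 le_rfl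
  have hq : q2 ≤ ⟨r1⟩ := hq2.trans hq1
  obtain ⟨φ⟩ := exists_emb h1
  have hne : Nonempty (Ll lam) := by
    rw [← mk_ne_zero_iff, mk_ord_toType]
    exact (aleph0_pos.trans_le h0).ne'
  have hHy : Hy lam (Ll lam) R ℓ B q2 := ⟨h0, bd_Kl h0, down_isTree R ℓ r1 hT q2.r hq.1, hB,
    fun B' r hr => h3 r (hr.trans hq.1) B'⟩
  exact hHy.false (Λ := Ll lam) (mk_ord_toType lam).le iio_Kl lt_Kl (mk_ord_toType lam).le φ

/-- no new sequences of length `λ` of elements of the ground model -/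
theorem noNew_R (h0 : ℵ₀ ≤ lam) (Z : Type) (E : Ll lam → Z → Set (Rc (Kl lam)))
    (r : Rc (Kl lam)) (hr : r ∈ IsFun E) :
    ∃ r' ≤ r, ∃ g : Ll lam → Z, ∀ a, r' ∈ meets (E a (g a)) := by
  have hcl : DC lam (Uc (Kl lam) 0) := dc_Uc (bd_Kl h0) 0
  obtain ⟨M, hM1, hM2, hM3⟩ := exists_chain h0 hcl (J := Ll lam) iio_Ll ⟨r⟩
    (fun a _ m' => ∃ z, m'.r ∈ meets (E a z)) (by
    intro a m hm
    obtain ⟨r', hr', z, hz⟩ := IsFun.total (down_IsFun E r hr m.r hm.1) a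
    obtain ⟨m', hm', h⟩ := m.lift h0 (bd_Kl h0) hr'
    exact ⟨m', hm', z, meets_dn hz h⟩)
  have : Nonempty (Ll lam) := by
    rw [← mk_ne_zero_iff, mk_ord_toType]
    exact (aleph0_pos.trans_le h0).ne'
  obtain ⟨mi, hmi⟩ := hcl.lb (mk_ord_toType lam).le M hM2
  choose m hm1 hm2 hm3 z hz using hM3
  exact ⟨mi.r, ((hmi (Classical.arbitrary _)).trans (hM1 _)).1, z, fun a =>
    meets_dn (hz a) (hmi a).1⟩

/-- small sets are not mapped onto larger ones -/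
theorem cards_R (h0 : ℵ₀ ≤ lam) {X Y : Type} (hX : #X ≤ lam) (hXY : #X < #Y)
    (E : X → Y → Set (Rc (Kl lam))) (r : Rc (Kl lam)) (hr : r ∈ fand (IsFun E) (IsOnto E)) :
    False := by
  have hcl : DC lam (Uc (Kl lam) 0) := dc_Uc (bd_Kl h0) 0
  obtain ⟨_, _⟩ := exists_wo X
  have hYn : Nonempty Y := by
    rw [← mk_ne_zero_iff]
    exact (lt_of_le_of_lt (zero_le) hXY).ne'
  obtain ⟨y0⟩ := hYn
  obtain ⟨_, _, x0, _⟩ := mem_fex.1 (hr.2 y0) r le_rfl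
  have : Nonempty X := ⟨x0⟩
  obtain ⟨M, hM1, hM2, hM3⟩ := exists_chain h0 hcl (J := X)
    (fun j => (mk_set_le _).trans hX) ⟨r⟩
    (fun a _ m' => ∃ z, m'.r ∈ meets (E a z)) (by
    intro a m hm
    obtain ⟨r', hr', z, hz⟩ := IsFun.total (down_IsFun E r hr.1 m.r hm.1) a
    obtain ⟨m', hm', h⟩ := m.lift h0 (bd_Kl h0) hr'
    exact ⟨m', hm', z, meets_dn hz h⟩)
  obtain ⟨mi, hmi⟩ := hcl.lb hX M hM2
  choose m hm1 hm2 hm3 z hz using hM3
  have hmr : mi.r ≤ r := ((hmi x0).trans (hM1 x0)).1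
  have hs : Function.Surjective z := by
    intro y
    obtain ⟨r', hr', x, hx⟩ := mem_fex.1 (hr.2 y) mi.r hmr
    refine ⟨x, ?_⟩
    exact IsFun.unique (down_IsFun E r hr.1 r' (hr'.trans hmr))
      (meets_dn (hz x) (hr'.trans (hmi x).1)) hx
  exact absurd (mk_le_of_surjective hs) (not_le.2 hXY)

end Pool.Agent.W873.Ns
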