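import Mathlib
import Pool.Agent.W873.Ns.Final

set_option autoImplicit false
set_option linter.unusedSectionVars false
set_option linter.unusedVariables false

/-!
# The narrow system
-/

namespace Pool.Agent.W873.Ns

open Set Cardinal Pool.Agent.Helper669.Forcing
open Pool.Agent.W873.Gmp (for' IsTree IsCofinalBranch TreeProp down_for' for'_left for'_right
  t_unique t_total t_lt t_trans t_pred t_uniq t_ne t_small t_comp meets_dn)
open Pool.Agent.W873.Gp (not_meets mem_meets_fground)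
open Pool.Agent.W873.Td (DC exists_chain Pj pb down_pb mem_pb pj_isTree Bd exists_wo mk_fin_pi
  for'_elim fnot_dn Kl Ll bd_Kl iio_Kl iio_Ll lt_Kl exists_emb down_isTree)

variable {K : Type} [LinearOrder K]

section

variable {P : Type} [Preorder P]

/-- In the extension: the relations named by `R n` are transitive and tree-like, they are
contained in the order of `K`, and `a < b` implies that `a` and `b` are related by one of them. -/
def IsSys (R : ℕ → K → K → Set P) : Set P :=
  fand (fall fun n : ℕ => fall fun a : K => fall fun b : K => fall fun c : K =>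
    fimp (fand (meets (R n a b)) (meets (R n b c))) (meets (R n a c)))
  (fand (fall fun n : ℕ => fall fun a : K => fall fun b : K => fall fun c : K =>
    fimp (fand (meets (R n a c)) (meets (R n b c)))
      (for' (fground (a = b)) (for' (meets (R n a b)) (meets (R n b a)))))
  (fand (fall fun n : ℕ => fall fun a : K => fall fun b : K =>
    fimp (meets (R n a b)) (fground (a < b)))
  (fall fun a : K => fall fun b : K => fall fun _ : a < b => fex fun n : ℕ => meets (R n a b))))

/-- In the extension: `B` is an unbounded set of pairwise comparable elements. -/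
def IsBr (R : K → K → Set P) (B : K → Set P) : Set P :=
  fand (fall fun a : K => fall fun b : K => fimp (fand (meets (B a)) (meets (B b)))
      (for' (fground (a = b)) (for' (meets (R a b)) (meets (R b a)))))
    (fall fun a : K => fex fun b : K => fand (fground (a < b)) (meets (B b)))

end

/-- the relations -/
def Rl (n : ℕ) (a b : K) : Set (Rc K) := {r | b ≤ r.g ∧ a < b ∧ r.d a b ≤ n}

theorem down_Rl (n : ℕ) (a b : K) : Down (Rl n a b) := by
  rintro r ⟨h1, h2, h3⟩ r' hr'
  exact ⟨h1.trans hr'.1, h2, by rw [hr'.2 a b h2.le h1]; exact h3⟩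

/-- a longer condition -/
def Rc.up (r : Rc K) (b : K) : Rc K where
  g := max r.g b
  d a c := r.d (a ⊓ r.g) (c ⊓ r.g)
  z0 a _ := r.z0 _ inf_le_right
  s1 a b c hab hbc _ := r.s1 _ _ _ (inf_le_inf_right _ hab) (inf_le_inf_right _ hbc) inf_le_right
  s2 a b c hab hbc _ := r.s2 _ _ _ (inf_le_inf_right _ hab) (inf_le_inf_right _ hbc) inf_le_right

theorem Rc.up_le (r : Rc K) (b : K) : r.up b ≤ r := by
  refine ⟨le_max_left _ _, fun a c hac hc => ?_⟩
  change r.d (a ⊓ r.g) (c ⊓ r.g) = r.d a c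
  rw [inf_eq_left.2 hc, inf_eq_left.2 (hac.trans hc)]

theorem Rc.le_up (r : Rc K) (b : K) : b ≤ (r.up b).g := le_max_right _ _

theorem isSys_Rl (r : Rc K) : r ∈ IsSys (Rl (K := K)) := by
  refine ⟨fun n a b c => ?_, fun n a b c => ?_, fun n a b => ?_, fun a b hab => ?_⟩
  · refine mem_fimp.2 fun r1 _ h => ?_
    obtain ⟨r2, hr2, h2⟩ := exists_of_meets (down_Rl n a b) h.1
    obtain ⟨r3, hr3, h3⟩ := exists_of_meets (down_Rl n b c) (meets_dn h.2 hr2)
    have h2' := down_Rl n a b r2 h2 r3 hr3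
    refine ⟨r3, hr3.trans hr2, meets_of_mem ⟨h3.1, h2.2.1.trans h3.2.1, ?_⟩⟩
    exact (r3.s1 a b c h2.2.1.le h3.2.1.le h3.1).trans (max_le h2'.2.2 h3.2.2)
  · refine mem_fimp.2 fun r1 _ h => ?_
    obtain ⟨r2, hr2, h2⟩ := exists_of_meets (down_Rl n a c) h.1
    obtain ⟨r3, hr3, h3⟩ := exists_of_meets (down_Rl n b c) (meets_dn h.2 hr2)
    have h2' := down_Rl n a c r2 h2 r3 hr3
    refine ⟨r3, hr3.trans hr2, ?_⟩
    rcases lt_trichotomy a b with hab | hab | hab
    · refine for'_right (down_for' _ _) (for'_left (down_meets _) (meets_of_mem ⟨?_, hab, ?_⟩))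
      · exact h3.2.1.le.trans h3.1
      · exact (r3.s2 a b c hab.le h3.2.1.le h3.1).trans (max_le h2'.2.2 h3.2.2)
    · exact for'_left (down_fground _) hab
    · refine for'_right (down_for' _ _) (for'_right (down_meets _) (meets_of_mem ⟨?_, hab, ?_⟩))
      · exact h2.2.1.le.trans h2'.1
      · exact (r3.s2 b a c hab.le h2.2.1.le h3.1).trans (max_le h3.2.2 h2'.2.2)
  · refine mem_fimp.2 fun r1 _ h => ?_
    obtain ⟨r2, hr2, h2⟩ := exists_of_meets (down_Rl n a b) h
    exact ⟨r2, hr2, h2.2.1⟩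
  · refine mem_fex.2 fun r1 _ => ?_
    exact ⟨r1.up b, r1.up_le b, (r1.up b).d a b, meets_of_mem ⟨r1.le_up b, hab, le_rfl⟩⟩

/-- related elements of a branch -/
theorem d_le_of_br {n : ℕ} {B : K → Set (Rc K)} {r : Rc K} (hr : r ∈ IsBr (Rl n) B)
    {a b : K} (ha : r ∈ meets (B a)) (hb : r ∈ meets (B b)) (hab : a < b) (hbg : b ≤ r.g) :
    r.d a b ≤ n := by
  obtain ⟨r1, hr1, h1⟩ := mem_fimp.1 (hr.1 a b) r le_rfl ⟨ha, hb⟩
  obtain ⟨r2, hr2, h2⟩ := for'_elim h1
  rcases h2 with h2 | h2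
  · exact absurd h2 hab.ne
  · obtain ⟨r3, hr3, h3⟩ := for'_elim h2
    rcases h3 with h3 | h3
    · obtain ⟨r4, hr4, h4⟩ := exists_of_meets (down_Rl n a b) h3
      rw [← ((hr4.trans hr3).trans (hr2.trans hr1)).2 a b hab.le hbg]
      exact h4.2.2
    · obtain ⟨r4, hr4, h4⟩ := exists_of_meets (down_Rl n b a) h3
      exact absurd (h4.2.1.trans hab) (lt_irrefl _)

/-- There are no branches. -/
theorem no_br [WellFoundedLT K] {lam : Cardinal.{0}} (h0 : ℵ₀ ≤ lam) (hB : Bd lam K) {n : ℕ}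
    {B : K → Set (Rc K)} {r0 : Rc K} (hr0 : r0 ∈ IsBr (Rl n) B) : False := by
  classical
  have hdn : ∀ r ≤ r0, r ∈ IsBr (Rl n) B := by
    intro r hr
    exact down_fand (down_fall fun _ => down_fall fun _ => down_fimp _ _)
      (down_fall fun _ => down_fex _) r0 hr0 r hr
  let S : Type := {p : Rc K × K // p.1 ≤ r0 ∧ p.2 ≤ p.1.g ∧ p.1 ∈ meets (B p.2)}
  have hstep : ∀ (r : Rc K) (a : K), r ≤ r0 → ∃ s' : S, s'.1.1 ≤ r ∧ a < s'.1.2 := by
    intro r a h1
    obtain ⟨q, hq, b, hb1, hb2⟩ := mem_fex.1 (hr0.2 a) r h1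
    have hb1 : a < b := hb1
    exact ⟨⟨(q.up b, b), (q.up_le b).trans (hq.trans h1), q.le_up b, meets_dn hb2 (q.up_le b)⟩,
      (q.up_le b).trans hq, hb1⟩
  have hstep' : ∀ s : S, ∃ s' : S, s'.1.1 ≤ s.1.1 ∧ s.1.1.g < s'.1.2 := fun s =>
    hstep s.1.1 s.1.1.g s.2.1
  choose nx hnx1 hnx2 using hstep'
  obtain ⟨s0, _, _⟩ := hstep r0 r0.g le_rfl
  let s : ℕ → S := fun i => Nat.rec s0 (fun _ s => nx s) i
  have hs : ∀ i, s (i + 1) = nx (s i) := fun i => rfl
  have hmono : ∀ i j, i ≤ j → (s j).1.1 ≤ (s i).1.1 := by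
    intro i j hij
    induction j, hij using Nat.le_induction with
    | base => exact le_rfl
    | succ j _ ih => exact (hnx1 (s j)).trans ih
  let b : ℕ → K := fun i => (s i).1.2
  let r : ℕ → Rc K := fun i => (s i).1.1
  have hbr : ∀ i, b i ≤ (r i).g := fun i => (s i).2.2.1
  have hrb : ∀ i, (r i).g < b (i + 1) := fun i => hnx2 (s i)
  have hb1 : StrictMono b := strictMono_nat_of_lt_succ fun i => (hbr i).trans_lt (hrb i)
  have hrm : ∀ i j, i ≤ j → r j ≤ r i := hmono
  have hrr0 : ∀ i, r i ≤ r0 := fun i => (s i).2.1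
  have hbB : ∀ i, r i ∈ meets (B (b i)) := fun i => (s i).2.2.2
  have hdb : ∀ i j, i < j → (r j).d (b i) (b j) ≤ n := fun i j hij =>
    d_le_of_br (hdn _ (hrr0 j)) (meets_dn (hbB i) (hrm i j hij.le)) (hbB j) (hb1 hij) (hbr j)
  obtain ⟨b', hb'⟩ := hB ℕ b (by rw [mk_nat]; exact h0)
  obtain ⟨γ, hγ, hmin⟩ := WellFounded.has_min (wellFounded_lt (α := K))
    ({β | ∀ i, b i < β} : Set K) ⟨b', hb'⟩
  have hγ : ∀ i, b i < γ := hγ
  have hC : ∀ β < γ, ∃ i, β ≤ b i := by
    intro β hβ
    by_contra hcon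
    push Not at hcon
    exact hmin β hcon hβ
  -- the values of the new top
  let h : K → ℕ := fun a => if H : ∃ i, a ≤ b i then
    max ((r (Nat.find H)).d a (b (Nat.find H))) (max (Nat.find H) n) else 0
  let e : K → K → ℕ := fun a β => if H : ∃ i, β ≤ b i then (r (Nat.find H)).d a β else
    if a < γ then h a else 0
  have hE : ∀ i a β, a ≤ β → β ≤ (r i).g → e a β = (r i).d a β := by
    intro i a β ha hβ
    have H : ∃ i, β ≤ b i := ⟨i + 1, hβ.trans (hrb i).le⟩
    have h1 : e a β = (r (Nat.find H)).d a β := dif_pos H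
    rw [h1]
    have h2 := (Nat.find_spec H).trans (hbr _)
    rcases le_total (Nat.find H) i with h3 | h3
    · exact ((hrm _ _ h3).2 a β ha h2).symm
    · exact (hrm _ _ h3).2 a β ha hβ
  have hNo : ¬ ∃ i, γ ≤ b i := fun ⟨i, hi⟩ => absurd (hγ i) (not_lt.2 hi)
  have hG : ∀ a < γ, e a γ = h a := fun a ha => by
    have h1 : e a γ = if a < γ then h a else 0 := dif_neg hNo
    rw [h1, if_pos ha]
  have hG' : e γ γ = 0 := by
    have h1 : e γ γ = if γ < γ then h γ else 0 := dif_neg hNo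
    rw [h1, if_neg (lt_irrefl _)]
  -- `h` in terms of the least `i`
  have hh : ∀ a (ha : ∃ i, a ≤ b i), ∃ i, a ≤ b i ∧ (∀ j < i, b j < a) ∧
      h a = max (e a (b i)) (max i n) := by
    intro a H
    refine ⟨Nat.find H, Nat.find_spec H, fun j hj => not_le.1 (Nat.find_min H hj), ?_⟩
    have h1 : h a = max ((r (Nat.find H)).d a (b (Nat.find H))) (max (Nat.find H) n) := dif_pos H
    rw [h1, hE (Nat.find H) a _ (Nat.find_spec H) (hbr _)]
  have eb : ∀ i j, i < j → e (b i) (b j) ≤ n := by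
    intro i j hij
    rw [hE j _ _ (hb1 hij).le (hbr j)]
    exact hdb i j hij
  have es1 : ∀ a β c i, a ≤ β → β ≤ c → c ≤ b i → e a c ≤ max (e a β) (e β c) := by
    intro a β c i h1 h2 h3
    rw [hE i a c (h1.trans h2) (h3.trans (hbr i)), hE i a β h1 ((h2.trans h3).trans (hbr i)),
      hE i β c h2 (h3.trans (hbr i))]
    exact (r i).s1 a β c h1 h2 (h3.trans (hbr i))
  have es2 : ∀ a β c i, a ≤ β → β ≤ c → c ≤ b i → e a β ≤ max (e a c) (e β c) := by
    intro a β c i h1 h2 h3
    rw [hE i a c (h1.trans h2) (h3.trans (hbr i)), hE i a β h1 ((h2.trans h3).trans (hbr i)),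
      hE i β c h2 (h3.trans (hbr i))]
    exact (r i).s2 a β c h1 h2 (h3.trans (hbr i))
  have k1 : ∀ a β, a ≤ β → β < γ → h a ≤ max (e a β) (h β) := by
    intro a β hab hβ
    obtain ⟨j, hj, hjm, hj'⟩ := hh β (hC β hβ)
    obtain ⟨i, hi, him, hi'⟩ := hh a (hC a (hab.trans_lt hβ))
    have hij : i ≤ j := not_lt.1 fun h => absurd (him j h) (not_lt.2 (hab.trans hj))
    rw [hi', hj']
    rcases hij.lt_or_eq with h1 | h1
    · have hbi : b i < β := hjm i h1
      have e1 := es2 a (b i) (b j) j hi (hb1 h1).le le_rfl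
      have e2 := eb i j h1
      have e3 := es1 a β (b j) j hab hj le_rfl
      omega
    · subst h1
      have e3 := es1 a β (b i) i hab hj le_rfl
      omega
  have k2 : ∀ a β, a ≤ β → β < γ → e a β ≤ max (h a) (h β) := by
    intro a β hab hβ
    obtain ⟨j, hj, hjm, hj'⟩ := hh β (hC β hβ)
    obtain ⟨i, hi, him, hi'⟩ := hh a (hC a (hab.trans_lt hβ))
    have hij : i ≤ j := not_lt.1 fun h => absurd (him j h) (not_lt.2 (hab.trans hj))
    rw [hi', hj']
    have e0 := es2 a β (b j) j hab hj le_rfl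
    rcases hij.lt_or_eq with h1 | h1
    · have e1 := es1 a (b i) (b j) j hi (hb1 h1).le le_rfl
      have e2 := eb i j h1
      omega
    · subst h1
      omega
  let p : Rc K :=
    { g := γ
      d := e
      z0 := by
        intro a ha
        rcases ha.lt_or_eq with h1 | rfl
        · obtain ⟨i, hi⟩ := hC a h1
          rw [hE i a a le_rfl (hi.trans (hbr i))]
          exact (r i).z0 a (hi.trans (hbr i))
        · exact hG'
      s1 := by
        intro a β c hab hbc hc
        rcases hc.lt_or_eq with h1 | rfl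
        · obtain ⟨i, hi⟩ := hC c h1
          exact es1 a β c i hab hbc hi
        · rcases hbc.lt_or_eq with h2 | rfl
          · rw [hG a (hab.trans_lt h2), hG β h2]
            exact k1 a β hab h2
          · exact le_max_left _ _
      s2 := by
        intro a β c hab hbc hc
        rcases hc.lt_or_eq with h1 | rfl
        · obtain ⟨i, hi⟩ := hC c h1
          exact es2 a β c i hab hbc hi
        · rcases hbc.lt_or_eq with h2 | rfl
          · rw [hG a (hab.trans_lt h2), hG β h2]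
            exact k2 a β hab h2
          · exact le_max_left _ _ }
  have hpr : ∀ i, p ≤ r i := fun i => ⟨((hrb i).trans (hγ (i + 1))).le, fun a β ha hβ =>
    hE i a β ha hβ⟩
  have hp0 : p ≤ r0 := (hpr 0).trans (hrr0 0)
  obtain ⟨⟨⟨q, c⟩, hq0, hcq, hcB⟩, hqp, hγc⟩ := hstep p γ hp0
  have hqp : q ≤ p := hqp
  have hγc : γ < c := hγc
  have hcq : c ≤ q.g := hcq
  have hcB : q ∈ meets (B c) := hcB
  have hq0 : q ≤ r0 := hq0
  have hall : ∀ i, q.d (b i) c ≤ n := fun i =>
    d_le_of_br (hdn q hq0) (meets_dn (hbB i) (hqp.trans (hpr i))) hcB ((hγ i).trans hγc) hcq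
  have hval : ∀ i, i ≤ q.d (b i) γ := by
    intro i
    rw [hqp.2 (b i) γ (hγ i).le le_rfl]
    change i ≤ e (b i) γ
    rw [hG _ (hγ i)]
    obtain ⟨j, hj, hjm, hj'⟩ := hh (b i) ⟨i, le_rfl⟩
    have hij : j = i := by
      rcases lt_trichotomy j i with h1 | h1 | h1
      · exact absurd hj (not_le.2 (hb1 h1))
      · exact h1
      · exact absurd (hjm i h1) (lt_irrefl _)
    subst hij
    rw [hj']
    omega
  let i := max n (q.d γ c) + 1
  have e1 := q.s2 (b i) γ c (hγ i).le hγc.le hcq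
  have e2 := hall i
  have e3 := hval i
  have e4 : i = max n (q.d γ c) + 1 := rfl
  omega

end Pool.Agent.W873.Ns
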