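import Mathlib
import Pool.Agent.W873.Ns.Sys
import Pool.Agent.W873.Ns.Ms

set_option autoImplicit false
set_option linter.unusedSectionVars false
set_option linter.unusedVariables false

/-!
# Indestructibly strongly compact cardinals
-/

namespace Pool.Agent.W873.Ns

open Set Cardinal Pool.Agent.Helper669.Forcing
open Pool.Agent.W873.Gmp (for' IsTree IsCofinalBranch TreeProp down_for' for'_left for'_right
  t_unique t_total t_lt t_trans t_pred t_uniq t_ne t_small t_comp meets_dn)
open Pool.Agent.W873.Gp (not_meets mem_meets_fground meets_of_dense)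
open Pool.Agent.W873.Td (DC exists_chain Bd exists_wo for'_elim fnot_dn Kl Ll bd_Kl iio_Kl iio_Ll
  lt_Kl exists_emb)

section

variable {Q : Type} [Preorder Q] {X : Type}

/-- In the extension: `F` is a proper `κ`-complete filter on `X`. -/
def IsFil (κ : Cardinal.{0}) (F : (X → Set Q) → Set Q) : Set Q :=
  fand (fall fun A : X → Set Q => fall fun A' : X → Set Q =>
    fimp (fand (meets (F A)) (fall fun a : X => fimp (meets (A a)) (meets (A' a))))
      (meets (F A')))
  (fand (fnot (meets (F fun _ => fground False)))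
  (fall fun I : Type => fall fun _ : #I < κ => fall fun A : I → X → Set Q =>
    fimp (fall fun i : I => meets (F (A i))) (meets (F fun a => fall fun i : I => meets (A i a)))))

/-- In the extension: the filter `U` is an ultrafilter. -/
def IsUlt (U : (X → Set Q) → Set Q) : Set Q :=
  fall fun A : X → Set Q => for' (meets (U A)) (meets (U fun a => fnot (meets (A a))))

variable (Q) in
/-- In the extension: `κ` is strongly compact, that is, each `κ`-complete filter can be extended to
a `κ`-complete ultrafilter. -/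
def Scc (κ : Cardinal.{0}) : Set Q :=
  fall fun X : Type => fall fun F : (X → Set Q) → Set Q => fimp (IsFil κ F)
    (fex fun U : (X → Set Q) → Set Q => fand (IsFil κ U) (fand (IsUlt U)
      (fall fun A : X → Set Q => fimp (meets (F A)) (meets (U A)))))

end

/-- `κ` is strongly compact in all extensions by `κ`-directed closed forcing -/
def Isc (κ : Cardinal.{0}) : Prop :=
  ∀ (Q : Type) [Preorder Q], (∀ (ι : Type) (D : ι → Q), #ι < κ → Nonempty ι →
    (∀ i j, ∃ k, D k ≤ D i ∧ D k ≤ D j) → ∃ p, ∀ i, p ≤ D i) → ∀ q : Q, q ∈ Scc Q κ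

theorem uf_of_isc {lam κ : Cardinal.{0}} (h0 : ℵ₀ ≤ lam) (hκ : κ ≤ lam) (H : Isc κ)
    {Q : Type} [Preorder Q] (hD : DC lam Q) {K : Type} [LinearOrder K] [WellFoundedLT K]
    (hb : Bd lam K) (q : Q) : q ∈ fex fun U : (K → Set Q) → Set Q => IsUf κ U := by
  classical
  have hsc := H Q (fun ι D hι hne hd => hD ι D (hι.le.trans hκ) hne hd) q
  have hunb : ∀ a : K, ∃ b, a < b := by
    intro a
    obtain ⟨b, hb⟩ := hb Unit (fun _ => a) (by rw [mk_unit]; exact one_le_aleph0.trans h0)
    exact ⟨b, hb ()⟩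
  have hKne : ∀ I : Type, ∀ a : I → K, #I ≤ lam → ∃ b, ∀ i, a i < b := fun I a hI => hb I a hI
  obtain ⟨k0, _⟩ := hb Empty (fun e => e.elim) (by simp)
  let F : (K → Set Q) → Set Q := fun A => {r | ∃ a, ∀ b, a < b → r ∈ meets (A b)}
  have hF : ∀ A, Down (F A) := by
    rintro A r ⟨a, ha⟩ r' hr'
    exact ⟨a, fun b hab => meets_dn (ha b hab) hr'⟩
  have hfil : q ∈ IsFil κ F := by
    refine ⟨fun A A' => ?_, ?_, fun I hI A => ?_⟩
    · refine mem_fimp.2 fun r hr h => ?_
      obtain ⟨r', hr', a, ha⟩ := exists_of_meets (hF A) h.1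
      refine ⟨r', hr', meets_of_mem ⟨a, fun b hab => ?_⟩⟩
      exact meets_of_dense fun s hs => mem_fimp.1 (h.2 b) s (hs.trans hr')
        (meets_dn (ha b hab) hs)
    · intro r hr h
      obtain ⟨r', hr', a, ha⟩ := exists_of_meets (hF _) h
      obtain ⟨b, hab⟩ := hunb a
      exact mem_meets_fground.1 (ha b hab)
    · refine mem_fimp.2 fun r hr h => ?_
      rcases isEmpty_or_nonempty I with hIe | hIn
      · exact ⟨r, le_rfl, meets_of_mem ⟨k0, fun b _ => meets_of_mem fun i => hIe.elim i⟩⟩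
      · have hI' : #I ≤ lam := hI.le.trans hκ
        obtain ⟨_, _⟩ := exists_wo I
        obtain ⟨M, hM1, hM2, hM3⟩ := exists_chain h0 hD (J := I)
          (fun j => (mk_set_le _).trans hI') r
          (fun i _ p' => ∃ a, ∀ b, a < b → p' ∈ meets (A i b)) (by
          intro i p hp
          obtain ⟨r', hr', a, ha⟩ := exists_of_meets (hF (A i)) (meets_dn (h i) hp)
          exact ⟨r', hr', a, ha⟩)
        choose m hm1 hm2 hm3 a ha using hM3
        obtain ⟨mi, hmi⟩ := hD.lb hI' M hM2
        obtain ⟨α, hα⟩ := hb I a hI'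
        refine ⟨mi, (hmi hIn.some).trans (hM1 _), meets_of_mem ⟨α, fun b hb => ?_⟩⟩
        exact meets_of_mem fun i => meets_dn (ha i b ((hα i).trans hb)) (hmi i)
  refine mem_fex.2 fun q' hq' => ?_
  obtain ⟨q1, hq1, h1⟩ := mem_fimp.1 (hsc K F) q' hq'
    (down_fand (down_fall fun _ => down_fall fun _ => down_fimp _ _)
      (down_fand (down_fnot _) (down_fall fun _ => down_fall fun _ => down_fall fun _ =>
        down_fimp _ _)) q hfil q' hq')
  obtain ⟨q2, hq2, U, hU1, hU2, hU3⟩ := mem_fex.1 h1 q1 le_rfl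
  refine ⟨q2, hq2.trans hq1, U, hU1.1, hU2, hU1.2.1, hU1.2.2, fun a => ?_⟩
  refine meets_of_dense fun r hr => mem_fimp.1 (hU3 _) r hr ?_
  exact meets_of_mem ⟨a, fun b hab => meets_of_mem hab⟩

/-- The tree property at the successor of a limit of indestructibly strongly compact cardinals is
indestructible. -/
theorem treeProp_of_isc {κ : ℕ → Cardinal.{0}} (hκ : StrictMono κ) (hκ0 : ∀ n, ℵ₀ < κ n)
    (H : ∀ n, Isc (κ n)) {lam : Cardinal.{0}} (hlam : lam = ⨆ n, κ n) {Q : Type} [Preorder Q]
    (hD : DC lam Q) (q : Q) : q ∈ TreeProp Q (Kl lam) (Ll lam) := by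
  classical
  have hbdd : BddAbove (range κ) := Cardinal.bddAbove_of_small
  have hle : ∀ n, κ n ≤ lam := fun n => by
    rw [hlam]
    exact le_ciSup hbdd n
  have h0 : ℵ₀ ≤ lam := (hκ0 0).le.trans (hle 0)
  have h1 : #(Ll lam) ≤ #(Σ n, (κ n).out) := by
    rw [mk_ord_toType, hlam, mk_sigma]
    simp only [mk_out]
    exact ciSup_le' fun n => Cardinal.le_sum κ n
  obtain ⟨e⟩ := h1
  refine ms h0 hD (bd_Kl h0) hκ0 (fun m q => uf_of_isc h0 (hle m) (H m) hD (bd_Kl h0) q)
    (V := fun m => {w | (e w).1 = m}) (fun w => ⟨(e w).1, rfl⟩) (fun m => ?_) (fun m =>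
      (mk_set_le _).trans (mk_ord_toType lam).le) q
  refine lt_of_le_of_lt ?_ (hκ (Nat.lt_succ_self m))
  have h2 : #{w | (e w).1 = m} ≤ #((κ m).out) := by
    refine mk_le_of_injective (f := fun w : {w | (e w).1 = m} => cast (by rw [w.2]) (e w.1).2) ?_
    rintro ⟨w, hw⟩ ⟨w', hw'⟩ h
    have h3 : e w = e w' := by
      have hw : (e w).1 = m := hw
      have hw' : (e w').1 = m := hw'
      refine Sigma.ext (hw.trans hw'.symm) ?_
      simp only at h
      exact (cast_heq _ _).symm.trans ((heq_of_eq h).trans (cast_heq _ _))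
    exact Subtype.ext (e.injective h3)
  rwa [mk_out] at h2

theorem lt_pow_of_sup {κ : ℕ → Cardinal.{0}} (hκ : StrictMono κ) {lam : Cardinal.{0}}
    (hlam : lam = ⨆ n, κ n) : lam < lam ^ ℵ₀ := by
  have hbdd : BddAbove (range κ) := Cardinal.bddAbove_of_small
  have h1 : lam ≤ Cardinal.sum κ := by
    rw [hlam]
    exact ciSup_le' fun n => Cardinal.le_sum κ n
  have h2 : Cardinal.sum κ < Cardinal.prod fun n => κ (n + 1) :=
    Cardinal.sum_lt_prod _ _ fun n => hκ (Nat.lt_succ_self n)
  have h3 : (Cardinal.prod fun n => κ (n + 1)) ≤ Cardinal.prod fun _ : ℕ => lam :=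
    Cardinal.prod_le_prod _ _ fun n => by
      rw [hlam]
      exact le_ciSup hbdd _
  refine (h1.trans_lt h2).trans_le (h3.trans (le_of_eq ?_))
  rw [Cardinal.prod_const]
  simp

end Pool.Agent.W873.Ns
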